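import Pool.Agent.Work.TreeRAM.Enc

/-!
# Factorisation of dense bivariate polynomials over finite fields: the statement
-/

set_option autoImplicit false

namespace Pool.Agent.BiFac

open Pool.Agent.TreeRAM

/-- The exponent of the monomial `x ^ i * y ^ j`. -/
noncomputable def expo (i j : ℕ) : Fin 2 →₀ ℕ := Finsupp.single 0 i + Finsupp.single 1 j

/-- The dense representation of a polynomial `F` in `K[x, y]` of total degree at most `d`: the
list of the lists of the coefficients of `x ^ i * y ^ j`, `j = 0, ..., d - i`, for
`i = 0, ..., d`. -/
noncomputable def dense {K : Type} [Field K] (d : ℕ) (F : MvPolynomial (Fin 2) K) :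
    List (List K) :=
  (List.range (d + 1)).map fun i => (List.range (d + 1 - i)).map fun j => F.coeff (expo i j)

/-- `L` is the complete factorisation of `F` up to units: the first components are irreducible
and pairwise not associated, the second components are positive, and the product of the powers
is associated to `F`. -/
def IsFactorization {K : Type} [Field K] (F : MvPolynomial (Fin 2) K)
    (L : List (MvPolynomial (Fin 2) K × ℕ)) : Prop :=
  (∀ g ∈ L, Irreducible g.1 ∧ 0 < g.2) ∧ L.Pairwise (fun g h => ¬ Associated g.1 h.1) ∧
    Associated (L.map fun g => g.1 ^ g.2).prod F

/-- The input of the program: the binary digits of the characteristic `p` (lowest first), the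
number `k` with `card K = p ^ k`, the dense representation of `F`, and a list of field elements
(the random tape). -/
noncomputable def input {K : Type} [Field K] (p k : ℕ) (F : MvPolynomial (Fin 2) K)
    (tape : List K) : D K :=
  enc K (Nat.bits p, k, dense F.totalDegree F, tape)

/-- The output that describes the factorisation `L`: the list of the dense representations of
the factors together with their multiplicities. -/
noncomputable def output {K : Type} [Field K] (L : List (MvPolynomial (Fin 2) K × ℕ)) : D K :=
  enc K (L.map fun g => (dense g.1.totalDegree g.1, g.2))

/-- **The statement.**  There are a program `P` (of the tree language with atoms in a field,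
which does not depend on the field) and `ε > 0` such that for every `c` there is a constant `C`
with the following property.  Let `K` be a finite field with `p ^ k` elements and let `F` be a
nonzero element of `K[x, y]` of total degree `d` with `card K ≤ d ^ c`.  Then, for random tapes of
every length `R ≥ C * d ^ (3 - ε)`, on every tape `P` stops after at most `C * d ^ (3 - ε)` steps,
and on at least two thirds of the tapes the result is the complete factorisation of `F`. -/
def SubcubicFactorization : Prop :=
  ∃ (P : Prog) (ε : ℝ), 0 < ε ∧ ∀ c : ℕ, ∃ C : ℝ,
    ∀ (K : Type) [Field K] [Fintype K] (p k d R : ℕ) (F : MvPolynomial (Fin 2) K),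
      p.Prime → Fintype.card K = p ^ k → F ≠ 0 → F.totalDegree = d → Fintype.card K ≤ d ^ c →
      C * (d : ℝ) ^ (3 - ε) ≤ R →
        (∀ tape : Fin R → K, ∃ (y : D K) (t : ℕ), Run P (input p k F (List.ofFn tape)) y t ∧
          (t : ℝ) ≤ C * (d : ℝ) ^ (3 - ε)) ∧
        2 * Nat.card (Fin R → K) ≤ 3 * Nat.card {tape : Fin R → K //
          ∃ (L : List (MvPolynomial (Fin 2) K × ℕ)) (t : ℕ), IsFactorization F L ∧
            Run P (input p k F (List.ofFn tape)) (output L) t}

end Pool.Agent.BiFac
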