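import Pool.Agent.Work.MP_8d07ed_lc.Bd.B06

/-!
# The cost of the second stage
-/

set_option autoImplicit false
set_option synthInstance.maxSize 4096

namespace Pool.Agent.BiFac

open Polynomial Pool.Agent.TreeRAM

variable {K : Type} [Field K]

/-! ### The basis of the restriction -/

theorem cb_len_restBasis [DecidableEq K] (k : ℕ) (U : List (Dat K)) :
    (restBasis k U).length ≤ U.length := length_pick_elimN _ _

theorem cb_rows_restBasis [DecidableEq K] (k : ℕ) (U : List (Dat K)) :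
    ∀ v ∈ restBasis k U, v.length = U.length := by
  intro v hv
  unfold restBasis pick at hv
  rw [List.mem_map] at hv
  obtain ⟨z, hz, rfl⟩ := hv
  have h1 := (List.of_mem_zip (List.mem_filter.1 hz).1).2
  rw [rows_transB _ _ _ h1, List.length_map]

theorem cb_restBasis_ex : ∃ c, ∀ (K : Type) [Field K] [DecidableEq K],
    Comp K (fun z : ℕ × List (Dat K) => restBasis z.1 z.2) c
      (fun z => ((restBasis z.1 z.2).length + 1) * (z.2.length + z.1 + 1) ^ 2) :=
  ⟨_, fun K _ _ => ((compPick (K := K) (f := fun z : ℕ × List (Dat K) =>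
    elimN z.2.length (transB z.1 (z.2.map fun u => u.2.2)))
    (g := fun z => transB z.1 (z.2.map fun u => u.2.2))).congr
    (g := fun z : ℕ × List (Dat K) => restBasis z.1 z.2) (fun z => rfl)).bigO 30 (fun z => by
      obtain ⟨k, U⟩ := z
      dsimp only
      have hk := cb_len_restBasis k U
      have e : pick (elimN U.length (transB k (U.map fun u => u.2.2)))
        (transB k (U.map fun u => u.2.2)) = restBasis k U := rfl
      rw [e]
      simp only [length_elimN, length_transB, List.length_map, List.map_const',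
        List.sum_replicate, smul_eq_mul, zero_add, mul_one]
      set κ := (restBasis k U).length
      set n := U.length
      have h1 : (n + 1) * (k + 1) ≤ (n + k + 1) ^ 2 := by
        rw [pow_two]
        exact Nat.mul_le_mul (by omega) (by omega)
      have h2 : n + k + 1 ≤ (n + k + 1) ^ 2 := Nat.le_self_pow (by norm_num) _
      have h3 : 1 * (n + k + 1) ^ 2 ≤ (κ + 1) * (n + k + 1) ^ 2 :=
        Nat.mul_le_mul_right _ (by omega)
      have h4 : (k + 1) * (κ + 1) * (n + κ + 1) ≤ 2 * ((κ + 1) * (n + k + 1) ^ 2) := by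
        calc (k + 1) * (κ + 1) * (n + κ + 1) ≤ (n + k + 1) * (κ + 1) * (2 * (n + k + 1)) :=
              Nat.mul_le_mul (Nat.mul_le_mul_right _ (by omega)) (by omega)
          _ = 2 * ((κ + 1) * (n + k + 1) ^ 2) := by ring
      omega)⟩

/-! ### The modulus -/

theorem cb_rows_chunks {α : Type} (n e : ℕ) (l : List α) :
    ∀ r ∈ chunks n e l, r.length ≤ e := by
  induction n generalizing l with
  | zero => simp [chunks]
  | succ n ih =>
    intro r hr
    rw [chunks, List.mem_cons] at hr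
    rcases hr with rfl | hr
    · rw [List.length_take]
      exact min_le_left _ _
    · exact ih _ r hr

theorem cb_sum_le {α : Type} (l : List α) (f : α → ℕ) (B : ℕ) (h : ∀ a ∈ l, f a ≤ B) :
    (l.map f).sum ≤ l.length * B := by
  induction l with
  | nil => simp
  | cons a l ih =>
    have i := ih fun b hb => h b (List.mem_cons_of_mem _ hb)
    have j := h a (List.mem_cons_self ..)
    simp only [List.map_cons, List.sum_cons, List.length_cons]
    have e : (l.length + 1) * B = l.length * B + B := by ring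
    omega

theorem cb_tot_le {α : Type} {L : List (List α)} {m : ℕ} (h : ∀ l ∈ L, l.length ≤ m) :
    tot L ≤ L.length * (m + 1) :=
  cb_sum_le L (fun l => l.length + 1) (m + 1) (fun l hl => Nat.succ_le_succ (h l hl))

theorem cb_tot_modulus (κ : ℕ) (tm : List K) :
    tot ((chunks 8 (2 * κ + 10) tm).map (fun l => l ++ [1])) ≤ 8 * (2 * κ + 12) := by
  have h : ∀ l ∈ (chunks 8 (2 * κ + 10) tm).map (fun l => l ++ [(1 : K)]),
      l.length ≤ 2 * κ + 11 := by
    intro l hl
    rw [List.mem_map] at hl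
    obtain ⟨r, hr, rfl⟩ := hl
    have := cb_rows_chunks _ _ _ r hr
    rw [List.length_append, List.length_singleton]
    omega
  have h2 := cb_tot_le h
  rw [List.length_map, length_chunks] at h2
  omega

theorem cb_len_modulus (κ : ℕ) (tm : List K) : (modulus κ tm).length ≤ 16 * κ + 97 := by
  have h1 := length_prodP_le ((chunks 8 (2 * κ + 10) tm).map (fun l => l ++ [(1 : K)]))
  have h2 := cb_tot_modulus κ tm
  rw [modulus]
  omega

theorem cb_modulus_ex : ∃ c, ∀ (K : Type) [Field K],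
    Comp K (fun z : ℕ × List K => modulus z.1 z.2) c (fun z => (z.1 + 1) ^ 2) :=
  ⟨_, fun K _ => ((compProdP (K := K) (f := fun z : ℕ × List K =>
    (chunks 8 (2 * z.1 + 10) z.2).map (fun l => l ++ [1]))).congr
    (g := fun z : ℕ × List K => modulus z.1 z.2) (fun z => rfl)).bigO 20000 (fun z => by
      obtain ⟨κ, tm⟩ := z
      dsimp only
      have h1 := cb_tot_modulus κ tm
      have h2 : ((chunks 8 (2 * κ + 10) tm).map (fun b => 0 + (0 + 0) + b.length + 1)).sum ≤
          8 * (2 * κ + 11) := by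
        have h3 := cb_tot_le (cb_rows_chunks 8 (2 * κ + 10) tm)
        rw [length_chunks] at h3
        simp only [zero_add, add_zero]
        exact h3
      have h4 : (tot ((chunks 8 (2 * κ + 10) tm).map (fun l => l ++ [1])) + 1) ^ 2 ≤
          (97 * (κ + 1)) ^ 2 := Nat.pow_le_pow_left (by omega) 2
      have h5 : (97 * (κ + 1)) ^ 2 = 9409 * (κ + 1) ^ 2 := by ring
      have h6 : κ + 1 ≤ (κ + 1) ^ 2 := Nat.le_self_pow (by norm_num) _
      omega)⟩

/-! ### The polynomials of the test -/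

theorem cb_zip {α β : Type} (b : List α) (U : List β) (f : β → ℕ) :
    ((b.zip U).map (fun p => f p.2)).sum ≤ (U.map f).sum := by
  induction U generalizing b with
  | nil => simp
  | cons u U ih =>
    cases b with
    | nil => simp
    | cons a b =>
      have := ih b
      simp only [List.zip_cons_cons, List.map_cons, List.sum_cons]
      omega

theorem cb_tot_rows {α : Type} {L : List (List α)} {w : ℕ} (h : ∀ r ∈ L, r.length = w) :
    tot L = L.length * (w + 1) := by
  induction L with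
  | nil => simp [tot]
  | cons r L ih =>
    have i := ih fun s hs => h s (List.mem_cons_of_mem _ hs)
    have j := h r (List.mem_cons_self ..)
    rw [tot_cons, i, j, List.length_cons]
    ring

/-- The list of the fractions. -/
def cbFr (w : ℕ) (b : List K) (U : List (Dat K)) : List (List (List K) × List (List K)) :=
  List.zipWith (fun c (u : Dat K) => (smulB c (bderiv w u.1), u.1)) b U

theorem cb_length_smulB (c : K) (F : List (List K)) : (smulB c F).length = F.length := by
  simp [smulB]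

theorem cb_tot_fst (w : ℕ) (b : List K) (U : List (Dat K)) :
    tot ((cbFr w b U).map Prod.fst) ≤ totD U := by
  unfold totD cbFr
  induction U generalizing b with
  | nil => simp
  | cons u U ih =>
    cases b with
    | nil => simp [tot]
    | cons a b =>
      have := ih b
      simp only [List.zipWith_cons_cons, List.map_cons, tot_cons, cb_length_smulB,
        length_bderiv] at this ⊢
      omega

theorem cb_tot_snd (w : ℕ) (b : List K) (U : List (Dat K)) :
    tot ((cbFr w b U).map Prod.snd) ≤ totD U := by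
  unfold totD cbFr
  induction U generalizing b with
  | nil => simp
  | cons u U ih =>
    cases b with
    | nil => simp [tot]
    | cons a b =>
      have := ih b
      simp only [List.zipWith_cons_cons, List.map_cons, tot_cons] at this ⊢
      omega

theorem cb_length_fr (w : ℕ) (b : List K) (U : List (Dat K)) :
    (cbFr w b U).length ≤ U.length := by
  rw [cbFr, List.length_zipWith]
  exact min_le_right _ _

theorem cb_length_gB (E : MEnv K) (w : ℕ) (U : List (Dat K)) (b : List K) :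
    (gB E w U b).length ≤ 2 * totD U := by
  have h1 := length_fracB_fst_le E w (cbFr w b U)
  have h2 := cb_tot_fst w b U
  have h3 := cb_tot_snd w b U
  have e : gB E w U b = (fracB E w (cbFr w b U)).1 := rfl
  rw [e]
  omega

theorem cb_sum_totD (U : List (Dat K)) (w : ℕ) :
    (U.map (fun u => 3 * ((u.1.length + 1) * (w + 1)))).sum = 3 * (totD U * (w + 1)) := by
  unfold totD tot
  rw [List.map_map]
  induction U with
  | nil => simp
  | cons u U ih =>
    simp only [List.map_cons, List.sum_cons, Function.comp] at ih ⊢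
    rw [ih]
    ring

theorem cb_fr_ex : ∃ c, ∀ (K : Type) [Field K],
    Comp K (fun z : ℕ × List K × List (Dat K) => cbFr z.1 z.2.1 z.2.2) c
      (fun z => (totD z.2.2 + 1) * (z.1 + 1)) :=
  ⟨_, fun K _ => (Comp.zipWith (K := K) (l := fun z : ℕ × List K × List (Dat K) => z.2.1)
    (m := fun z => z.2.2)
    (g := fun z c (u : Dat K) => (smulB c (bderiv z.1 u.1), u.1))).bigO 20 (fun z => by
      obtain ⟨w, b, U⟩ := z
      dsimp only
      have h1 : ∀ p : K × Dat K, 0 + (0 + 0 + (p.2.1.length + 1) * (w + 1)) +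
          tot (bderiv w p.2.1) + 0 + 1 ≤ 3 * ((p.2.1.length + 1) * (w + 1)) := by
        intro p
        rw [cb_tot_rows (rows_bderiv w p.2.1), length_bderiv]
        have h2 : (p.2.1.length - 1) * (w + 1) ≤ (p.2.1.length + 1) * (w + 1) :=
          Nat.mul_le_mul_right _ (by omega)
        have h3 : 1 * 1 ≤ (p.2.1.length + 1) * (w + 1) := Nat.mul_le_mul (by omega) (by omega)
        omega
      have h4 : ((b.zip U).map (fun p => 0 + (0 + 0 + (p.2.1.length + 1) * (w + 1)) +
          tot (bderiv w p.2.1) + 0 + 1)).sum ≤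
          ((b.zip U).map (fun p => 3 * ((p.2.1.length + 1) * (w + 1)))).sum :=
        List.sum_le_sum (fun p _ => h1 p)
      have h5 := cb_zip b U (fun u => 3 * ((u.1.length + 1) * (w + 1)))
      have h6 := cb_sum_totD U w
      have h7 : (totD U + 1) * (w + 1) = totD U * (w + 1) + (w + 1) := by ring
      omega)⟩

theorem cb_gB_ex : ∃ c, ∀ (K : Type) [Field K],
    Comp K (fun z : MEnv K × ℕ × List (Dat K) × List K => gB z.1 z.2.1 z.2.2.1 z.2.2.2) c
      (fun z => (totD z.2.2.1 + 1) * (z.2.1 + 1) * (z.1.1 + 1) *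
        (Nat.clog 2 z.2.2.1.length + 1)) := by
  obtain ⟨c, hc⟩ := cb_fr_ex
  exact ⟨_, fun K _ => ((compCombB (K := K)
    (E := fun z : MEnv K × ℕ × List (Dat K) × List K => z.1) (w := fun z => z.2.1)
    (L := fun z => cbFr z.2.1 z.2.2.2 z.2.2.1)
    (h3 := (hc K).comp (f := fun z : MEnv K × ℕ × List (Dat K) × List K =>
      (z.2.1, z.2.2.2, z.2.2.1)) inferInstance)).congr
    (g := fun z : MEnv K × ℕ × List (Dat K) × List K => gB z.1 z.2.1 z.2.2.1 z.2.2.2)
    (fun z => rfl)).bigO 20 (fun z => by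
      obtain ⟨E, w, U, b⟩ := z
      dsimp only
      have h1 := cb_tot_fst w b U
      have h2 := cb_tot_snd w b U
      have h3 : Nat.clog 2 (cbFr w b U).length ≤ Nat.clog 2 U.length :=
        Nat.clog_mono_right 2 (cb_length_fr w b U)
      have h4 : (tot ((cbFr w b U).map Prod.fst) + tot ((cbFr w b U).map Prod.snd) + 1) *
          (w + 1) * (E.1 + 1) * (Nat.clog 2 (cbFr w b U).length + 1) ≤
          (2 * (totD U + 1)) * (w + 1) * (E.1 + 1) * (Nat.clog 2 U.length + 1) :=
        Nat.mul_le_mul (Nat.mul_le_mul_right _ (Nat.mul_le_mul_right _ (by omega))) (by omega)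
      have h5 : (2 * (totD U + 1)) * (w + 1) * (E.1 + 1) * (Nat.clog 2 U.length + 1) =
        2 * ((totD U + 1) * (w + 1) * (E.1 + 1) * (Nat.clog 2 U.length + 1)) := by ring
      have h6 : (totD U + 1) * (w + 1) * 1 * 1 ≤
          (totD U + 1) * (w + 1) * (E.1 + 1) * (Nat.clog 2 U.length + 1) :=
        Nat.mul_le_mul (Nat.mul_le_mul_left _ (by omega)) (by omega)
      omega)⟩

noncomputable def cb_gBCd : Cd := cb_gB_ex.choose

instance cb_compGB {α : Type} [Enc K α] {E : α → MEnv K} {w : α → ℕ} {U : α → List (Dat K)}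
    {b : α → List K} {c1 c2 c3 c4 : Cd} {T1 T2 T3 T4 : α → ℕ} [h1 : Comp K E c1 T1]
    [h2 : Comp K w c2 T2] [h3 : Comp K U c3 T3] [h4 : Comp K b c4 T4] :
    Comp K (fun x => gB (E x) (w x) (U x) (b x)) (cb_gBCd.comp (c1.pair (c2.pair (c3.pair c4))))
      (fun x => T1 x + (T2 x + (T3 x + T4 x)) + (totD (U x) + 1) * (w x + 1) *
        ((E x).1 + 1) * (Nat.clog 2 (U x).length + 1)) :=
  (cb_gB_ex.choose_spec K).comp (Comp.pair (h := h1) (h' := Comp.pair (h := h2)
    (h' := Comp.pair (h := h3) (h' := h4))))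

/-! ### The rows of the test and their kernel -/

/-- The vectors of the test, with the product `F` of the class as an argument. -/
noncomputable def cbTest (E : MEnv K) (Q : FQ) (F : List (List K)) (U : List (Dat K))
    (P : List (List K)) (m : List K) : List (List K) :=
  P.map (fun b => tvec E Q F.length m F (gB E F.length U b))

/-- The cost of one vector of the test. -/
def cbV (S l : ℕ) (F : List (List K)) (U : List (Dat K)) (m : List K) : ℕ :=
  (totD U + F.length + 1) * (F.length + m.length + 1) * (S + 1) *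
    (Nat.clog 2 U.length + 1) * l

theorem cb_one_le_lg (Q : FQ) : 1 ≤ Q.lg := Nat.mul_pos (by omega) (by omega)

/-- The context of the test: the data `E, Q`, then `F, U`, then `P, m`. -/
abbrev CbC (K : Type) : Type :=
  (MEnv K × FQ) × (List (List K) × List (Dat K)) × List (List K) × List K

theorem cb_vec_ex : ∃ c, ∀ (K : Type) [Field K],
    Comp K (fun z : CbC K × List K => tvec z.1.1.1 z.1.1.2 z.1.2.1.1.length z.1.2.2.2
          z.1.2.1.1 (gB z.1.1.1 z.1.2.1.1.length z.1.2.1.2 z.2)) c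
      (fun z => cbV z.1.1.1.1 z.1.1.2.lg z.1.2.1.1 z.1.2.1.2 z.1.2.2.2) :=
  ⟨_, fun K _ => by
    have h1 : Comp K (fun z : CbC K × List K => gB z.1.1.1 z.1.2.1.1.length z.1.2.1.2 z.2) _ _ :=
      inferInstance
    have h2 : Comp K (fun z : CbC K × List K => tvec z.1.1.1 z.1.1.2 z.1.2.1.1.length z.1.2.2.2
          z.1.2.1.1 (gB z.1.1.1 z.1.2.1.1.length z.1.2.1.2 z.2)) _ _ :=
      compTvec (h6 := h1)
    refine h2.bigO 20 (fun z => ?_)
    obtain ⟨⟨⟨E, Q⟩, ⟨F, U⟩, P, m⟩, b⟩ := z
    dsimp only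
    have hl := cb_one_le_lg Q
    have hg := cb_length_gB E F.length U b
    have e0 : cbV E.1 Q.lg F U m = (totD U + F.length + 1) * (F.length + m.length + 1) *
      (E.1 + 1) * (Nat.clog 2 U.length + 1) * Q.lg := rfl
    have h3 : (totD U + 1) * (F.length + 1) * (E.1 + 1) * (Nat.clog 2 U.length + 1) ≤
        cbV E.1 Q.lg F U m := by
      rw [e0]
      calc (totD U + 1) * (F.length + 1) * (E.1 + 1) * (Nat.clog 2 U.length + 1)
          ≤ (totD U + F.length + 1) * (F.length + m.length + 1) * (E.1 + 1) *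
            (Nat.clog 2 U.length + 1) :=
            Nat.mul_le_mul_right _ (Nat.mul_le_mul_right _
              (Nat.mul_le_mul (by omega) (by omega)))
        _ ≤ _ := Nat.le_mul_of_pos_right _ hl
    have h4 : (F.length + (gB E F.length U b).length + 1) *
        (F.length + m.length + F.length + 1) * (E.1 + 1) * Q.lg ≤ 4 * cbV E.1 Q.lg F U m := by
      rw [e0]
      calc (F.length + (gB E F.length U b).length + 1) *
            (F.length + m.length + F.length + 1) * (E.1 + 1) * Q.lg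
          ≤ (2 * (totD U + F.length + 1)) * (2 * (F.length + m.length + 1)) * (E.1 + 1) *
            Q.lg := Nat.mul_le_mul_right _ (Nat.mul_le_mul_right _
              (Nat.mul_le_mul (by omega) (by omega)))
        _ ≤ (2 * (totD U + F.length + 1)) * (2 * (F.length + m.length + 1)) * (E.1 + 1) *
            (Nat.clog 2 U.length + 1) * Q.lg :=
            Nat.mul_le_mul_right _ (Nat.le_mul_of_pos_right _ (by omega))
        _ = _ := by ring
    have h5 : F.length + 1 ≤ (totD U + 1) * (F.length + 1) * (E.1 + 1) *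
        (Nat.clog 2 U.length + 1) := by
      calc F.length + 1 = 1 * (F.length + 1) * 1 * 1 := by ring
        _ ≤ _ := Nat.mul_le_mul (Nat.mul_le_mul (Nat.mul_le_mul_right _ (by omega)) (by omega))
          (by omega)
    omega⟩

theorem cb_V_pos (S : ℕ) {l : ℕ} (hl : 1 ≤ l) (F : List (List K)) (U : List (Dat K))
    (m : List K) : 1 ≤ cbV S l F U m := by
  unfold cbV
  exact Nat.mul_pos (Nat.mul_pos (Nat.mul_pos (Nat.mul_pos (by omega) (by omega)) (by omega))
    (by omega)) hl

theorem cb_test_ex : ∃ c, ∀ (K : Type) [Field K],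
    Comp K (fun z : CbC K => cbTest z.1.1 z.1.2 z.2.1.1 z.2.1.2 z.2.2.1 z.2.2.2) c
      (fun z => (z.2.2.1.length + 1) * cbV z.1.1.1 z.1.2.lg z.2.1.1 z.2.1.2 z.2.2.2) := by
  obtain ⟨c, hc⟩ := cb_vec_ex
  exact ⟨_, fun K _ => by
    have h1 := Comp.map (K := K) (l := fun z : CbC K => z.2.2.1)
      (g := fun z b => tvec z.1.1 z.1.2 z.2.1.1.length z.2.2.2 z.2.1.1
        (gB z.1.1 z.2.1.1.length z.2.1.2 b)) (hg := hc K)
    have h2 : Comp K (fun z : CbC K => cbTest z.1.1 z.1.2 z.2.1.1 z.2.1.2 z.2.2.1 z.2.2.2) _ _ :=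
      h1.congr (fun z => by rw [cbTest])
    refine h2.bigO 5 (fun z => ?_)
    obtain ⟨⟨E, Q⟩, ⟨F, U⟩, P, m⟩ := z
    dsimp only
    have h3 := cb_sum_le P (fun _ => cbV E.1 Q.lg F U m + 1) (cbV E.1 Q.lg F U m + 1)
      (fun _ _ => le_rfl)
    have h4 := cb_V_pos E.1 (cb_one_le_lg Q) F U m
    have h5 : P.length * (cbV E.1 Q.lg F U m + 1) ≤ P.length * (2 * cbV E.1 Q.lg F U m) :=
      Nat.mul_le_mul_left _ (by omega)
    have h6 : (P.length + 1) * cbV E.1 Q.lg F U m = P.length * cbV E.1 Q.lg F U m +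
      cbV E.1 Q.lg F U m := by ring
    have h7 : P.length * (2 * cbV E.1 Q.lg F U m) = 2 * (P.length * cbV E.1 Q.lg F U m) := by
      ring
    omega⟩

/-- The kernel of the test. -/
noncomputable def cbKer [DecidableEq K] (E : MEnv K) (Q : FQ) (F : List (List K))
    (U : List (Dat K)) (P : List (List K)) (m : List K) : List (List K) :=
  leftKerN ((F.length - 1) * (m.length - 1)) (cbTest E Q F U P m)

theorem cb_length_test (E : MEnv K) (Q : FQ) (F : List (List K)) (U : List (Dat K))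
    (P : List (List K)) (m : List K) : (cbTest E Q F U P m).length = P.length := by
  rw [cbTest, List.length_map]

theorem cb_ker_ex : ∃ c, ∀ (K : Type) [Field K] [DecidableEq K],
    Comp K (fun z : CbC K => cbKer z.1.1 z.1.2 z.2.1.1 z.2.1.2 z.2.2.1 z.2.2.2) c
      (fun z => (z.2.2.1.length + 1) * cbV z.1.1.1 z.1.2.lg z.2.1.1 z.2.1.2 z.2.2.2 +
        (z.2.2.1.length + 1) ^ 2 * (z.2.1.1.length * z.2.2.2.length + z.2.2.1.length + 1)) := by
  obtain ⟨c, hc⟩ := cb_test_ex
  exact ⟨_, fun K _ _ => by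
    have h1 := compLeftKerN (K := K) (f := fun z : CbC K =>
      (z.2.1.1.length - 1) * (z.2.2.2.length - 1))
      (g := fun z => cbTest z.1.1 z.1.2 z.2.1.1 z.2.1.2 z.2.2.1 z.2.2.2) (h' := hc K)
    have h2 : Comp K (fun z : CbC K => cbKer z.1.1 z.1.2 z.2.1.1 z.2.1.2 z.2.2.1 z.2.2.2) _ _ :=
      h1.congr (fun z => by rw [cbKer])
    refine h2.bigO 5 (fun z => ?_)
    obtain ⟨⟨E, Q⟩, ⟨F, U⟩, P, m⟩ := z
    simp only [cb_length_test]
    have h3 : (F.length - 1) * (m.length - 1 + 1) ≤ F.length * m.length + F.length :=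
      calc (F.length - 1) * (m.length - 1 + 1) ≤ F.length * (m.length + 1) :=
            Nat.mul_le_mul (by omega) (by omega)
        _ = _ := by ring
    have h4 : (F.length - 1) * (m.length - 1) ≤ F.length * m.length :=
      Nat.mul_le_mul (by omega) (by omega)
    have h5 : (P.length + 1) ^ 2 * ((F.length - 1) * (m.length - 1) + P.length + 1) ≤
        (P.length + 1) ^ 2 * (F.length * m.length + P.length + 1) :=
      Nat.mul_le_mul_left _ (by omega)
    have h6 : 1 ^ 2 * (F.length * m.length + P.length + 1) ≤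
        (P.length + 1) ^ 2 * (F.length * m.length + P.length + 1) :=
      Nat.mul_le_mul_right _ (Nat.pow_le_pow_left (by omega) 2)
    have h7 : F.length + m.length + 1 ≤ cbV E.1 Q.lg F U m := by
      have e0 : cbV E.1 Q.lg F U m = (totD U + F.length + 1) * (F.length + m.length + 1) *
        (E.1 + 1) * (Nat.clog 2 U.length + 1) * Q.lg := rfl
      have hl := cb_one_le_lg Q
      rw [e0]
      calc F.length + m.length + 1 = 1 * (F.length + m.length + 1) * 1 * 1 * 1 := by ring
        _ ≤ _ := Nat.mul_le_mul (Nat.mul_le_mul (Nat.mul_le_mul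
          (Nat.mul_le_mul_right _ (by omega)) (by omega)) (by omega)) hl
    have h8 : 1 * cbV E.1 Q.lg F U m ≤ (P.length + 1) * cbV E.1 Q.lg F U m :=
      Nat.mul_le_mul_right _ (by omega)
    omega⟩

/-! ### The last step of the second stage -/

/-- The classes from the kernel. -/
noncomputable def cbFin [DecidableEq K] (U : List (Dat K)) (P : List (List K)) (tc : List K)
    (Kr : List (List K)) : List (List (Dat K)) :=
  classesBy (lincomb (lincomb tc Kr) P) U

theorem cb_zip_tot (b : List K) (L : List (List K)) :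
    ((b.zip L).map (fun p => p.2.length + 1)).sum ≤ tot L := cb_zip b L (fun l => l.length + 1)

theorem cb_fin_ex : ∃ c, ∀ (K : Type) [Field K] [DecidableEq K],
    Comp K (fun z : (List (Dat K) × List (List K)) × List K × List (List K) =>
      cbFin z.1.1 z.1.2 z.2.1 z.2.2) c
      (fun z => tot z.2.2 + tot z.1.2 +
        ((lincomb (lincomb z.2.1 z.2.2) z.1.2).length + 1) ^ 2) :=
  ⟨_, fun K _ _ => by
    have h1 := compClassesBy (K := K)
      (w := fun z : (List (Dat K) × List (List K)) × List K × List (List K) =>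
        lincomb (lincomb z.2.1 z.2.2) z.1.2) (R := fun z => z.1.1)
    have h2 : Comp K (fun z : (List (Dat K) × List (List K)) × List K × List (List K) =>
      cbFin z.1.1 z.1.2 z.2.1 z.2.2) _ _ := h1.congr (fun z => by rw [cbFin])
    refine h2.bigO 5 (fun z => ?_)
    obtain ⟨⟨U, P⟩, tc, Kr⟩ := z
    dsimp only
    have h3 := cb_zip_tot tc Kr
    have h4 := cb_zip_tot (lincomb tc Kr) P
    omega⟩

/-! ### Assembly -/

/-- The input of `stage2`. -/
abbrev CbZ (K : Type) : Type := (MEnv K × FQ) × (ℕ × ℕ) × List (Dat K) × List K × List K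

/-- The size of the input. -/
def cbN {K : Type} [Field K] (z : CbZ K) : ℕ := totD z.2.2.1 + z.2.1.2 + 1

/-- The number of tests. -/
noncomputable def cbKap [DecidableEq K] (z : CbZ K) : ℕ := (restBasis z.2.1.2 z.2.2.1).length

/-- The bound. -/
noncomputable def cbT [DecidableEq K] (z : CbZ K) : ℕ :=
  cbN z * (2 ^ z.2.1.1 + 1) * (z.1.1.1 + 1) * (Nat.clog 2 (cbN z) + 1) +
    (cbKap z + 1) * cbN z ^ 2 * (z.1.1.1 + 1) * (Nat.clog 2 (cbN z) + 1) * z.1.2.lg +
    (cbKap z + 1) ^ 3 * cbN z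

theorem cb_len_le (U : List (Dat K)) : U.length ≤ totD U := by
  unfold totD
  have := length_le_tot (U.map Prod.fst)
  rwa [List.length_map] at this

theorem cb_n_le (z : CbZ K) : z.2.2.1.length + z.2.1.2 + 1 ≤ cbN z := by
  have := cb_len_le z.2.2.1
  unfold cbN
  omega

theorem cb_kap_le [DecidableEq K] (z : CbZ K) : cbKap z ≤ z.2.2.1.length :=
  cb_len_restBasis _ _

theorem cb_T1 [DecidableEq K] (z : CbZ K) :
    cbN z * (2 ^ z.2.1.1 + 1) * (z.1.1.1 + 1) * (Nat.clog 2 (cbN z) + 1) ≤ cbT z := by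
  unfold cbT
  omega

theorem cb_T2 [DecidableEq K] (z : CbZ K) :
    (cbKap z + 1) * cbN z ^ 2 * (z.1.1.1 + 1) * (Nat.clog 2 (cbN z) + 1) * z.1.2.lg ≤ cbT z := by
  unfold cbT
  omega

theorem cb_T2' [DecidableEq K] (z : CbZ K) : (cbKap z + 1) * cbN z ^ 2 ≤ cbT z := by
  refine le_trans ?_ (cb_T2 z)
  calc (cbKap z + 1) * cbN z ^ 2 = (cbKap z + 1) * cbN z ^ 2 * 1 * 1 * 1 := by ring
    _ ≤ _ := Nat.mul_le_mul (Nat.mul_le_mul (Nat.mul_le_mul_left _ (by omega)) (by omega))
      (cb_one_le_lg _)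

theorem cb_T3 [DecidableEq K] (z : CbZ K) : (cbKap z + 1) ^ 3 * cbN z ≤ cbT z := by
  unfold cbT
  omega

theorem cb_P_ex : ∃ c, ∀ (K : Type) [Field K] [DecidableEq K],
    Comp K (fun z : CbZ K => restBasis z.2.1.2 z.2.2.1) c (fun z => cbT z) := by
  obtain ⟨c, hc⟩ := cb_restBasis_ex
  exact ⟨_, fun K _ _ => ((hc K).comp (f := fun z : CbZ K => (z.2.1.2, z.2.2.1))
    inferInstance).bigO 5 (fun z => by
      dsimp only
      have h1 := cb_T2' z
      have h2 := cb_n_le z
      have h3 : ((restBasis z.2.1.2 z.2.2.1).length + 1) *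
          (z.2.2.1.length + z.2.1.2 + 1) ^ 2 ≤ (cbKap z + 1) * cbN z ^ 2 :=
        Nat.mul_le_mul_left _ (Nat.pow_le_pow_left h2 2)
      omega)⟩

theorem cb_m_ex : ∃ c, ∀ (K : Type) [Field K] [DecidableEq K],
    Comp K (fun z : CbZ K => modulus (restBasis z.2.1.2 z.2.2.1).length z.2.2.2.1) c
      (fun z => cbT z) := by
  obtain ⟨c, hc⟩ := cb_modulus_ex
  obtain ⟨c', hc'⟩ := cb_P_ex
  exact ⟨_, fun K _ _ => by
    have h0 : Comp K (fun z : CbZ K => (restBasis z.2.1.2 z.2.2.1).length) _ _ :=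
      Comp.length (h := hc' K)
    have h1 : Comp K (fun z : CbZ K => ((restBasis z.2.1.2 z.2.2.1).length, z.2.2.2.1)) _ _ :=
      Comp.pair (h := h0)
    refine ((hc K).comp h1).bigO 5 (fun z => ?_)
    dsimp only
    have h2 := cb_T3 z
    have e : (restBasis z.2.1.2 z.2.2.1).length = cbKap z := rfl
    rw [e]
    have h3 : (cbKap z + 1) ^ 2 ≤ (cbKap z + 1) ^ 3 * cbN z :=
      calc (cbKap z + 1) ^ 2 ≤ (cbKap z + 1) ^ 3 :=
            Nat.pow_le_pow_right (by omega) (by norm_num)
        _ ≤ _ := Nat.le_mul_of_pos_right _ (by have := cb_n_le z; omega)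
    have h4 : cbKap z + 1 ≤ (cbKap z + 1) ^ 2 := Nat.le_self_pow (by norm_num) _
    omega⟩

theorem cb_F_ex : ∃ c, ∀ (K : Type) [Field K] [DecidableEq K],
    Comp K (fun z : CbZ K => clsProd z.1.1 z.2.1.1 z.2.2.1) c (fun z => cbT z) :=
  ⟨_, fun K _ _ => by
    have h1 := compProdB (K := K) (E := fun z : CbZ K => z.1.1) (w := fun z => 2 ^ z.2.1.1)
      (L := fun z => z.2.2.1.map (fun u => u.1))
    have h2 : Comp K (fun z : CbZ K => clsProd z.1.1 z.2.1.1 z.2.2.1) _ _ :=
      h1.congr (fun z => rfl)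
    refine h2.bigO 10 (fun z => ?_)
    have e : tot (z.2.2.1.map (fun u => u.1)) = totD z.2.2.1 := rfl
    simp only [List.length_map, List.map_const', List.sum_replicate, smul_eq_mul, zero_add,
      mul_one, e]
    have h3 := cb_T1 z
    have h4 := cb_n_le z
    have h5 : (totD z.2.2.1 + 1) * (2 ^ z.2.1.1 + 1) * (z.1.1.1 + 1) *
        (Nat.clog 2 z.2.2.1.length + 1) ≤
        cbN z * (2 ^ z.2.1.1 + 1) * (z.1.1.1 + 1) * (Nat.clog 2 (cbN z) + 1) := by
      have h6 : Nat.clog 2 z.2.2.1.length ≤ Nat.clog 2 (cbN z) :=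
        Nat.clog_mono_right 2 (by omega)
      exact Nat.mul_le_mul (Nat.mul_le_mul_right _ (Nat.mul_le_mul_right _
        (by unfold cbN; omega))) (by omega)
    have h7 : cbN z + 2 ^ z.2.1.1 ≤
        cbN z * (2 ^ z.2.1.1 + 1) * (z.1.1.1 + 1) * (Nat.clog 2 (cbN z) + 1) := by
      have h8 : cbN z + 2 ^ z.2.1.1 ≤ cbN z * (2 ^ z.2.1.1 + 1) := by
        have : 1 * 2 ^ z.2.1.1 ≤ cbN z * 2 ^ z.2.1.1 := Nat.mul_le_mul_right _ (by omega)
        have e2 : cbN z * (2 ^ z.2.1.1 + 1) = cbN z * 2 ^ z.2.1.1 + cbN z := by ring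
        omega
      calc cbN z + 2 ^ z.2.1.1 ≤ cbN z * (2 ^ z.2.1.1 + 1) := h8
        _ = cbN z * (2 ^ z.2.1.1 + 1) * 1 * 1 := by ring
        _ ≤ _ := Nat.mul_le_mul (Nat.mul_le_mul_left _ (by omega)) (by omega)
    omega⟩

/-- The context of the test in `stage2`. -/
noncomputable def cbCtx [DecidableEq K] (z : CbZ K) : CbC K :=
  (z.1, (clsProd z.1.1 z.2.1.1 z.2.2.1, z.2.2.1), restBasis z.2.1.2 z.2.2.1,
    modulus (restBasis z.2.1.2 z.2.2.1).length z.2.2.2.1)

theorem cb_ctx_ex : ∃ c, ∀ (K : Type) [Field K] [DecidableEq K],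
    Comp K (fun z : CbZ K => cbCtx z) c (fun z => cbT z) := by
  obtain ⟨c1, h1⟩ := cb_P_ex
  obtain ⟨c2, h2⟩ := cb_m_ex
  obtain ⟨c3, h3⟩ := cb_F_ex
  exact ⟨_, fun K _ _ => by
    have i1 := h1 K
    have i2 := h2 K
    have i3 := h3 K
    have a1 : Comp K (fun z : CbZ K => (clsProd z.1.1 z.2.1.1 z.2.2.1, z.2.2.1)) _ _ :=
      Comp.pair (h := i3)
    have a2 : Comp K (fun z : CbZ K => (restBasis z.2.1.2 z.2.2.1,
        modulus (restBasis z.2.1.2 z.2.2.1).length z.2.2.2.1)) _ _ :=
      Comp.pair (h := i1) (h' := i2)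
    have a3 : Comp K (fun z : CbZ K => (z.1, (clsProd z.1.1 z.2.1.1 z.2.2.1, z.2.2.1),
      restBasis z.2.1.2 z.2.2.1, modulus (restBasis z.2.1.2 z.2.2.1).length z.2.2.2.1)) _ _ :=
      Comp.pair (h' := Comp.pair (h := a1) (h' := a2))
    exact (a3.congr (g := fun z : CbZ K => cbCtx z) (fun z => rfl)).bigO 5 (fun z => by omega)⟩

/-- The kernel in `stage2`. -/
noncomputable def cbK [DecidableEq K] (z : CbZ K) : List (List K) :=
  cbKer (cbCtx z).1.1 (cbCtx z).1.2 (cbCtx z).2.1.1 (cbCtx z).2.1.2 (cbCtx z).2.2.1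
    (cbCtx z).2.2.2

theorem cb_len_F (E : MEnv K) (t : ℕ) (U : List (Dat K)) :
    (clsProd E t U).length ≤ totD U + 1 := length_prodB_le E (2 ^ t) (U.map Prod.fst)

theorem cb_K_ex : ∃ c, ∀ (K : Type) [Field K] [DecidableEq K],
    Comp K (fun z : CbZ K => cbK z) c (fun z => cbT z) := by
  obtain ⟨c1, h1⟩ := cb_ctx_ex
  obtain ⟨c2, h2⟩ := cb_ker_ex
  exact ⟨_, fun K _ _ => by
    have i1 := (h2 K).comp (h1 K)
    have i2 : Comp K (fun z : CbZ K => cbK z) _ _ := i1.congr (fun z => rfl)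
    refine i2.bigO 500 (fun z => ?_)
    have hN := cb_n_le z
    have hk := cb_kap_le z
    have hF : (cbCtx z).2.1.1.length ≤ cbN z :=
      (cb_len_F z.1.1 z.2.1.1 z.2.2.1).trans (by unfold cbN; omega)
    have hm : (cbCtx z).2.2.2.length ≤ 16 * cbKap z + 97 := cb_len_modulus _ _
    have hP : (cbCtx z).2.2.1.length = cbKap z := rfl
    have hV : cbV (cbCtx z).1.1.1 (cbCtx z).1.2.lg (cbCtx z).2.1.1 (cbCtx z).2.1.2
        (cbCtx z).2.2.2 ≤ 198 * (cbN z ^ 2 * (z.1.1.1 + 1) * (Nat.clog 2 (cbN z) + 1) *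
          z.1.2.lg) := by
      have e : cbV (cbCtx z).1.1.1 (cbCtx z).1.2.lg (cbCtx z).2.1.1 (cbCtx z).2.1.2
        (cbCtx z).2.2.2 = (totD z.2.2.1 + (cbCtx z).2.1.1.length + 1) *
          ((cbCtx z).2.1.1.length + (cbCtx z).2.2.2.length + 1) * (z.1.1.1 + 1) *
          (Nat.clog 2 z.2.2.1.length + 1) * z.1.2.lg := rfl
      have h6 : Nat.clog 2 z.2.2.1.length ≤ Nat.clog 2 (cbN z) :=
        Nat.clog_mono_right 2 (by omega)
      have e2 : cbN z = totD z.2.2.1 + z.2.1.2 + 1 := rfl
      rw [e]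
      calc (totD z.2.2.1 + (cbCtx z).2.1.1.length + 1) *
            ((cbCtx z).2.1.1.length + (cbCtx z).2.2.2.length + 1) * (z.1.1.1 + 1) *
            (Nat.clog 2 z.2.2.1.length + 1) * z.1.2.lg
          ≤ (2 * cbN z) * (99 * cbN z) * (z.1.1.1 + 1) * (Nat.clog 2 (cbN z) + 1) *
            z.1.2.lg := Nat.mul_le_mul_right _ (Nat.mul_le_mul (Nat.mul_le_mul_right _
              (Nat.mul_le_mul (by omega) (by omega))) (by omega))
        _ = _ := by ring
    have h7 : (cbKap z + 1) * cbV (cbCtx z).1.1.1 (cbCtx z).1.2.lg (cbCtx z).2.1.1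
        (cbCtx z).2.1.2 (cbCtx z).2.2.2 ≤ 198 * cbT z := by
      refine (Nat.mul_le_mul_left _ hV).trans ?_
      have := Nat.mul_le_mul_left 198 (cb_T2 z)
      refine le_trans (le_of_eq ?_) this
      ring
    have h8 : (cbKap z + 1) ^ 2 * ((cbCtx z).2.1.1.length * (cbCtx z).2.2.2.length +
        cbKap z + 1) ≤ 98 * cbT z := by
      have a1 : (cbCtx z).2.1.1.length * (cbCtx z).2.2.2.length ≤
          cbN z * (97 * (cbKap z + 1)) := Nat.mul_le_mul hF (by omega)
      have a2 : 1 * (cbKap z + 1) ≤ cbN z * (cbKap z + 1) := Nat.mul_le_mul_right _ (by omega)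
      have a3 : (cbKap z + 1) ^ 2 * ((cbCtx z).2.1.1.length * (cbCtx z).2.2.2.length +
          cbKap z + 1) ≤ (cbKap z + 1) ^ 2 * (98 * (cbN z * (cbKap z + 1))) := by
        refine Nat.mul_le_mul_left _ ?_
        have a4 : cbN z * (97 * (cbKap z + 1)) = 97 * (cbN z * (cbKap z + 1)) := by ring
        omega
      have a5 := Nat.mul_le_mul_left 98 (cb_T3 z)
      refine (a3.trans (le_of_eq ?_)).trans a5
      ring
    rw [hP]
    omega⟩

theorem cb_len_K [DecidableEq K] (z : CbZ K) : (cbK z).length ≤ cbKap z := by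
  unfold cbK cbKer
  refine (length_leftKerN _ _).trans ?_
  rw [cb_length_test]
  rfl

theorem cb_rows_K [DecidableEq K] (z : CbZ K) : ∀ v ∈ cbK z, v.length ≤ cbKap z := by
  intro v hv
  unfold cbK cbKer at hv
  rw [(leftKerN_mem hv).1, cb_length_test]
  rfl

theorem stage2_ex : ∃ c, ∀ (K : Type) [Field K] [DecidableEq K],
    Comp K (fun z : (MEnv K × FQ) × (ℕ × ℕ) × List (Dat K) × List K × List K =>
      stage2 z.1.1 z.1.2 z.2.1.1 z.2.1.2 z.2.2.1 z.2.2.2.1 z.2.2.2.2) c
      (fun z => (totD z.2.2.1 + z.2.1.2 + 1) * (2 ^ z.2.1.1 + 1) * (z.1.1.1 + 1) *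
        (Nat.clog 2 (totD z.2.2.1 + z.2.1.2 + 1) + 1) +
        ((restBasis z.2.1.2 z.2.2.1).length + 1) * (totD z.2.2.1 + z.2.1.2 + 1) ^ 2 *
          (z.1.1.1 + 1) * (Nat.clog 2 (totD z.2.2.1 + z.2.1.2 + 1) + 1) * z.1.2.lg +
        ((restBasis z.2.1.2 z.2.2.1).length + 1) ^ 3 * (totD z.2.2.1 + z.2.1.2 + 1)) := by
  obtain ⟨c1, h1⟩ := cb_P_ex
  obtain ⟨c2, h2⟩ := cb_K_ex
  obtain ⟨c3, h3⟩ := cb_fin_ex
  exact ⟨_, fun K _ _ => by
    have i1 := h1 K
    have i2 := h2 K
    have a1 : Comp K (fun z : CbZ K => (z.2.2.1, restBasis z.2.1.2 z.2.2.1)) _ _ :=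
      Comp.pair (h' := i1)
    have a2 : Comp K (fun z : CbZ K => (z.2.2.2.2, cbK z)) _ _ := Comp.pair (h' := i2)
    have a3 : Comp K (fun z : CbZ K => ((z.2.2.1, restBasis z.2.1.2 z.2.2.1),
      (z.2.2.2.2, cbK z))) _ _ := Comp.pair (h := a1) (h' := a2)
    have a4 := (h3 K).comp a3
    have a5 : Comp K (fun z : CbZ K =>
      stage2 z.1.1 z.1.2 z.2.1.1 z.2.1.2 z.2.2.1 z.2.2.2.1 z.2.2.2.2) _ _ :=
      a4.congr (fun z => rfl)
    refine a5.bigO (T' := fun z => cbT z) 10 (fun z => ?_)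
    dsimp only
    have hN := cb_n_le z
    have hk := cb_kap_le z
    have b1 : tot (cbK z) ≤ (cbKap z + 1) * cbN z ^ 2 := by
      refine (cb_tot_le (cb_rows_K z)).trans ?_
      calc (cbK z).length * (cbKap z + 1) ≤ cbN z * (cbKap z + 1) :=
            Nat.mul_le_mul_right _ (by have := cb_len_K z; omega)
        _ = (cbKap z + 1) * cbN z := by ring
        _ ≤ _ := Nat.mul_le_mul_left _ (Nat.le_self_pow (by norm_num) _)
    have b2 : tot (restBasis z.2.1.2 z.2.2.1) ≤ (cbKap z + 1) * cbN z ^ 2 := by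
      refine (cb_tot_le (fun v hv => (cb_rows_restBasis _ _ v hv).le)).trans ?_
      calc (restBasis z.2.1.2 z.2.2.1).length * (z.2.2.1.length + 1)
          ≤ (cbKap z + 1) * cbN z := Nat.mul_le_mul (Nat.le_succ _) (by omega)
        _ ≤ _ := Nat.mul_le_mul_left _ (Nat.le_self_pow (by norm_num) _)
    have b3 : (lincomb (lincomb z.2.2.2.2 (cbK z)) (restBasis z.2.1.2 z.2.2.1)).length ≤
        z.2.2.1.length :=
      length_lincomb_le (fun v hv => (cb_rows_restBasis _ _ v hv).le)
    have b4 : ((lincomb (lincomb z.2.2.2.2 (cbK z)) (restBasis z.2.1.2 z.2.2.1)).length + 1) ^ 2 ≤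
        (cbKap z + 1) * cbN z ^ 2 := by
      calc _ ≤ cbN z ^ 2 := Nat.pow_le_pow_left (by omega) 2
        _ ≤ _ := Nat.le_mul_of_pos_left _ (by omega)
    have b5 := cb_T2' z
    omega⟩

noncomputable def stage2Cd : Cd := stage2_ex.choose

instance compStage2 [DecidableEq K] {α : Type} [Enc K α] {E : α → MEnv K} {Q : α → FQ}
    {t k : α → ℕ} {U : α → List (Dat K)} {tm tc : α → List K} {c1 c2 c3 c4 c5 c6 c7 : Cd}
    {T1 T2 T3 T4 T5 T6 T7 : α → ℕ} [h1 : Comp K E c1 T1] [h2 : Comp K Q c2 T2]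
    [h3 : Comp K t c3 T3] [h4 : Comp K k c4 T4] [h5 : Comp K U c5 T5] [h6 : Comp K tm c6 T6]
    [h7 : Comp K tc c7 T7] :
    Comp K (fun x => stage2 (E x) (Q x) (t x) (k x) (U x) (tm x) (tc x))
      (stage2Cd.comp ((c1.pair c2).pair ((c3.pair c4).pair (c5.pair (c6.pair c7)))))
      (fun x => T1 x + T2 x + (T3 x + T4 x + (T5 x + (T6 x + T7 x))) +
        ((totD (U x) + k x + 1) * (2 ^ t x + 1) * ((E x).1 + 1) *
          (Nat.clog 2 (totD (U x) + k x + 1) + 1) +
          ((restBasis (k x) (U x)).length + 1) * (totD (U x) + k x + 1) ^ 2 *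
            ((E x).1 + 1) * (Nat.clog 2 (totD (U x) + k x + 1) + 1) * (Q x).lg +
          ((restBasis (k x) (U x)).length + 1) ^ 3 * (totD (U x) + k x + 1))) :=
  (stage2_ex.choose_spec K).comp (f := fun x => ((E x, Q x), (t x, k x), U x, tm x, tc x))
    (Comp.pair (h := Comp.pair (h := h1) (h' := h2)) (h' := Comp.pair
      (h := Comp.pair (h := h3) (h' := h4)) (h' := Comp.pair (h := h5)
        (h' := Comp.pair (h := h6) (h' := h7)))))

end Pool.Agent.BiFac
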