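import Pool.Agent.Work.MP_8d07ed_lc.Bd.B06

/-!
# The numerical bound
-/

set_option autoImplicit false

namespace Pool.Agent.BiFac

open Polynomial Pool.Agent.TreeRAM

variable {K : Type} [Field K]

private theorem cb_root_mul (c X : ℕ) :
    nroot 20 (c * X) ≤ c * nroot 20 X := by
  refine nroot_le_of ?_
  rw [mul_pow]
  exact Nat.mul_le_mul (Nat.le_self_pow (by norm_num) c) (nroot_spec (by norm_num) X)

private theorem cb_root_mono {a b : ℕ} (h : a ≤ b) : nroot 20 a ≤ nroot 20 b :=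
  nroot_le_of (h.trans (nroot_spec (by norm_num) b))

private theorem cb_kerT {c s X : ℕ} (h : s + 1 ≤ c * X) :
    kerT s ≤ c ^ 21 * (X ^ 2 * nroot 20 X ^ 19) := by
  unfold kerT
  calc (s + 1) ^ 2 * nroot 20 (s + 1) ^ 19 ≤ (c * X) ^ 2 * (c * nroot 20 X) ^ 19 :=
        Nat.mul_le_mul (Nat.pow_le_pow_left h 2)
          (Nat.pow_le_pow_left ((cb_root_mono h).trans (cb_root_mul c X)) 19)
    _ = _ := by ring

private theorem cb_pos (d : ℕ) : 1 ≤ nroot 20 (d + 2) :=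
  nroot_pos (k := 20) (by norm_num) (Nat.succ_pos (d + 1))

private theorem cb_sOf (d : ℕ) : sOf d + 1 ≤ 3 * nroot 20 (d + 2) := by
  have h1 : nroot 400 (d + 1) ≤ nroot 20 (d + 2) := by
    refine nroot_le_of ?_
    have h2 := nroot_spec (k := 20) (by norm_num) (d + 2)
    have h3 : nroot 20 (d + 2) ^ 20 ≤ nroot 20 (d + 2) ^ 400 :=
      Nat.pow_le_pow_right (cb_pos d) (by norm_num)
    omega
  have h0 := cb_pos d
  unfold sOf
  omega

private theorem cb_root2 (X : ℕ) : nroot 2 X ≤ nroot 20 X ^ 10 := by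
  refine nroot_le_of ?_
  rw [← pow_mul]
  exact nroot_spec (by norm_num) X

private theorem cb_clog {s X : ℕ} (h : s ≤ 8 * X) :
    Nat.clog 2 s + 1 ≤ 4 * (Nat.clog 2 X + 1) := by
  have h1 : Nat.clog 2 s ≤ Nat.clog 2 X + 3 := by
    refine Nat.clog_le_of_le_pow ?_
    have h2 := Nat.le_pow_clog (b := 2) (by norm_num) X
    rw [pow_add]
    omega
  omega

/-- the common bound -/
private def PP (X ν L B : ℕ) : ℕ := X ^ 2 * ν ^ 19 * L ^ 5 * B

private theorem cb_mon {X ν L B c T : ℕ} (i j k m : ℕ) (hX : 1 ≤ X) (hν : 1 ≤ ν) (hL : 1 ≤ L)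
    (hB : 1 ≤ B) (hT : T ≤ c * (X ^ i * ν ^ j * L ^ k * B ^ m)) (hi : i ≤ 2) (hj : j ≤ 19)
    (hk : k ≤ 5) (hm : m ≤ 1) : T ≤ c * PP X ν L B := by
  refine hT.trans (Nat.mul_le_mul_left _ ?_)
  calc X ^ i * ν ^ j * L ^ k * B ^ m ≤ X ^ 2 * ν ^ 19 * L ^ 5 * B ^ 1 :=
        Nat.mul_le_mul (Nat.mul_le_mul (Nat.mul_le_mul (Nat.pow_le_pow_right hX hi)
          (Nat.pow_le_pow_right hν hj)) (Nat.pow_le_pow_right hL hk))
          (Nat.pow_le_pow_right hB hm)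
    _ = _ := by rw [pow_one]; rfl

/-- The number of random elements. -/
private theorem cb_tape (d : ℕ) : (tapeLens d).sum ≤
    200 * PP (d + 2) (nroot 20 (d + 2)) (Nat.clog 2 (d + 2) + 1) 1 := by
  have hν := cb_pos d
  have hs := cb_sOf d
  obtain ⟨-, ht, -⟩ := two_pow_tOf d
  have h2 := cb_root2 (d + 2)
  have hc : Nat.clog 2 (d + 1) ≤ Nat.clog 2 (d + 2) := Nat.clog_mono_right 2 (by omega)
  unfold tapeLens uniTape nbOf
  simp only [List.sum_cons, List.sum_nil, add_zero]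
  generalize Nat.clog 2 (d + 1) = l' at *
  generalize nroot 2 (d + 2) = μ at *
  generalize nroot 20 (d + 2) = ν at *
  generalize Nat.clog 2 (d + 2) = l at *
  generalize sOf d = S at *
  generalize 2 ^ tOf d = W at *
  generalize hX : d + 2 = X at *
  have hX1 : 1 ≤ X := by omega
  have hL : 1 ≤ l + 1 := by omega
  have e0 : d * W ≤ 8 * PP X ν (l + 1) 1 := by
    refine cb_mon 2 10 0 0 hX1 hν hL le_rfl ?_ (by norm_num) (by norm_num) (by norm_num)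
      (by norm_num)
    calc d * W ≤ X * (8 * X * ν ^ 10) :=
          Nat.mul_le_mul (by omega) (ht.trans (Nat.mul_le_mul_left _ h2))
      _ = _ := by ring
  have e1 : (l' + 2) * (8 * l * (d + 1)) ≤ 16 * PP X ν (l + 1) 1 := by
    refine cb_mon 1 0 2 0 hX1 hν hL le_rfl ?_ (by norm_num) (by norm_num) (by norm_num)
      (by norm_num)
    calc (l' + 2) * (8 * l * (d + 1)) ≤ (2 * (l + 1)) * (8 * (l + 1) * X) :=
          Nat.mul_le_mul (by omega) (Nat.mul_le_mul (by omega) (by omega))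
      _ = _ := by ring
  have e2 : X ≤ 1 * PP X ν (l + 1) 1 :=
    cb_mon 1 0 0 0 hX1 hν hL le_rfl (by simp) (by norm_num) (by norm_num) (by norm_num)
      (by norm_num)
  have e3 : ν ≤ 1 * PP X ν (l + 1) 1 :=
    cb_mon 0 1 0 0 hX1 hν hL le_rfl (by simp) (by norm_num) (by norm_num) (by norm_num)
      (by norm_num)
  omega

private theorem cb_pos' {X ν L B : ℕ} (hX : 1 ≤ X) (hν : 1 ≤ ν) (hL : 1 ≤ L) (hB : 1 ≤ B) :
    1 ≤ PP X ν L B := by
  have := cb_mon (T := 1) (c := 1) 0 0 0 0 hX hν hL hB (by simp) (by norm_num) (by norm_num)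
    (by norm_num) (by norm_num)
  omega

section terms

variable {X ν L B : ℕ} (hX : 1 ≤ X) (hν : 1 ≤ ν) (hL : 1 ≤ L) (hB : 1 ≤ B)
include hX hν hL hB

private theorem cb_T1 : X ^ 2 ≤ 1 * PP X ν L B :=
  cb_mon 2 0 0 0 hX hν hL hB (by simp) (by norm_num) (by norm_num) (by norm_num) (by norm_num)

private theorem cb_T2 {s : ℕ} (hs : s ≤ 3 * ν) : s ^ 4 ≤ 81 * PP X ν L B := by
  refine cb_mon 0 4 0 0 hX hν hL hB ?_ (by norm_num) (by norm_num) (by norm_num) (by norm_num)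
  calc s ^ 4 ≤ (3 * ν) ^ 4 := Nat.pow_le_pow_left hs 4
    _ = _ := by ring

private theorem cb_T3 {c κ s lg : ℕ} (hc : c ≤ L) (hκ : κ ≤ 3 ^ 21 * (X ^ 2 * ν ^ 19))
    (hs : s ≤ 3 * ν) (hlg : lg ≤ 20 * L * B) :
    c ^ 2 * (κ + X ^ 2 * s * lg) ≤ (3 ^ 21 + 60) * PP X ν L B := by
  refine cb_mon 2 19 3 1 hX hν hL hB ?_ (by norm_num) (by norm_num) (by norm_num) (by norm_num)
  have h1 : κ ≤ 3 ^ 21 * (X ^ 2 * ν ^ 19 * (L * B)) := by
    refine hκ.trans (Nat.mul_le_mul_left _ ?_)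
    exact Nat.le_mul_of_pos_right _ (Nat.mul_pos hL hB)
  have h2 : X ^ 2 * s * lg ≤ 60 * (X ^ 2 * ν ^ 19 * (L * B)) := by
    calc X ^ 2 * s * lg ≤ X ^ 2 * (3 * ν ^ 19) * (20 * L * B) := by
          refine Nat.mul_le_mul (Nat.mul_le_mul_left _ (hs.trans (Nat.mul_le_mul_left _ ?_))) hlg
          exact Nat.le_self_pow (by norm_num) ν
      _ = _ := by ring
  calc c ^ 2 * (κ + X ^ 2 * s * lg) ≤ L ^ 2 * (3 ^ 21 * (X ^ 2 * ν ^ 19 * (L * B)) +
        60 * (X ^ 2 * ν ^ 19 * (L * B))) :=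
        Nat.mul_le_mul (Nat.pow_le_pow_left hc 2) (Nat.add_le_add h1 h2)
    _ = _ := by ring

private theorem cb_T4 {n W s c l lg : ℕ} (hn : n ≤ 7 * X) (hW : W ≤ 3 * X) (hs : s ≤ 3 * ν)
    (hc : c ≤ 4 * L) (hl : l ≤ L) (hlg : lg ≤ 20 * L * B) :
    n * W * s * c ^ 2 * l * lg + n ^ 2 ≤ (20160 + 49) * PP X ν L B := by
  have h1 : n * W * s * c ^ 2 * l * lg ≤ 20160 * PP X ν L B := by
    refine cb_mon 2 1 4 1 hX hν hL hB ?_ (by norm_num) (by norm_num) (by norm_num) (by norm_num)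
    calc n * W * s * c ^ 2 * l * lg ≤
        (7 * X) * (3 * X) * (3 * ν) * (4 * L) ^ 2 * L * (20 * L * B) :=
          Nat.mul_le_mul (Nat.mul_le_mul (Nat.mul_le_mul (Nat.mul_le_mul (Nat.mul_le_mul hn hW)
            hs) (Nat.pow_le_pow_left hc 2)) hl) hlg
      _ = _ := by ring
  have h2 : n ^ 2 ≤ 49 * PP X ν L B := by
    refine cb_mon 2 0 0 0 hX hν hL hB ?_ (by norm_num) (by norm_num) (by norm_num) (by norm_num)
    calc n ^ 2 ≤ (7 * X) ^ 2 := Nat.pow_le_pow_left hn 2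
      _ = _ := by ring
  omega

private theorem cb_T5 {n κ W s c l lg k : ℕ} (hn : n ≤ 4 * X)
    (hκ : κ ≤ 9 ^ 21 * (X ^ 2 * ν ^ 19)) (hW : W ≤ 8 * X * ν ^ 10) (hs : s ≤ 3 * ν)
    (hc : c ≤ 4 * L) (hl : l ≤ 4 * L) (hlg : lg ≤ 20 * L * B) (hk : k ≤ 3 * ν ^ 10)
    (hν20 : ν ^ 20 ≤ 2 ^ 20 * X) :
    κ + n * (W + n) * s * c ^ 2 * l + k * n ^ 2 * s * c * lg + k ^ 3 * n ≤
      (9 ^ 21 + 9216 + 11520 + 108 * 2 ^ 20) * PP X ν L B := by
  have h1 : κ ≤ 9 ^ 21 * PP X ν L B := by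
    refine cb_mon 2 19 0 0 hX hν hL hB ?_ (by norm_num) (by norm_num) (by norm_num) (by norm_num)
    simpa using hκ
  have hn' : n ≤ 4 * X * ν ^ 10 := hn.trans (Nat.le_mul_of_pos_right _ (by positivity))
  have h2 : n * (W + n) * s * c ^ 2 * l ≤ 9216 * PP X ν L B := by
    refine cb_mon 2 11 3 0 hX hν hL hB ?_ (by norm_num) (by norm_num) (by norm_num) (by norm_num)
    calc n * (W + n) * s * c ^ 2 * l ≤
        (4 * X) * (8 * X * ν ^ 10 + 4 * X * ν ^ 10) * (3 * ν) * (4 * L) ^ 2 * (4 * L) :=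
          Nat.mul_le_mul (Nat.mul_le_mul (Nat.mul_le_mul (Nat.mul_le_mul hn
            (Nat.add_le_add hW hn')) hs) (Nat.pow_le_pow_left hc 2)) hl
      _ = _ := by ring
  have h3 : k * n ^ 2 * s * c * lg ≤ 11520 * PP X ν L B := by
    refine cb_mon 2 11 2 1 hX hν hL hB ?_ (by norm_num) (by norm_num) (by norm_num) (by norm_num)
    calc k * n ^ 2 * s * c * lg ≤
        (3 * ν ^ 10) * (4 * X) ^ 2 * (3 * ν) * (4 * L) * (20 * L * B) :=
          Nat.mul_le_mul (Nat.mul_le_mul (Nat.mul_le_mul (Nat.mul_le_mul hk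
            (Nat.pow_le_pow_left hn 2)) hs) hc) hlg
      _ = _ := by ring
  have h4 : k ^ 3 * n ≤ (108 * 2 ^ 20) * PP X ν L B := by
    refine cb_mon 2 10 0 0 hX hν hL hB ?_ (by norm_num) (by norm_num) (by norm_num) (by norm_num)
    calc k ^ 3 * n ≤ (3 * ν ^ 10) ^ 3 * (4 * X) :=
          Nat.mul_le_mul (Nat.pow_le_pow_left hk 3) hn
      _ = 108 * (ν ^ 20 * X * ν ^ 10) := by ring
      _ ≤ 108 * ((2 ^ 20 * X) * X * ν ^ 10) :=
          Nat.mul_le_mul_left _ (Nat.mul_le_mul_right _ (Nat.mul_le_mul_right _ hν20))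
      _ = _ := by ring
  have e : (9 ^ 21 + 9216 + 11520 + 108 * 2 ^ 20) * PP X ν L B = 9 ^ 21 * PP X ν L B +
    9216 * PP X ν L B + 11520 * PP X ν L B + (108 * 2 ^ 20) * PP X ν L B := by ring
  rw [e]
  exact Nat.add_le_add (Nat.add_le_add (Nat.add_le_add h1 h2) h3) h4

private theorem cb_T6 {N o s c l b : ℕ} (hN : N ≤ 20 * L) (ho : o ≤ 5 * X) (hs : s ≤ 3 * ν)
    (hc : c ≤ 4 * L) (hl : l ≤ 20 * L) (hb : b ≤ B) :
    N ^ 2 * o ^ 2 * s * c ^ 2 * l * b ≤ 9600000 * PP X ν L B := by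
  refine cb_mon 2 1 5 1 hX hν hL hB ?_ (by norm_num) (by norm_num) (by norm_num) (by norm_num)
  calc N ^ 2 * o ^ 2 * s * c ^ 2 * l * b ≤
      (20 * L) ^ 2 * (5 * X) ^ 2 * (3 * ν) * (4 * L) ^ 2 * (20 * L) * B :=
        Nat.mul_le_mul (Nat.mul_le_mul (Nat.mul_le_mul (Nat.mul_le_mul (Nat.mul_le_mul
          (Nat.pow_le_pow_left hN 2) (Nat.pow_le_pow_left ho 2)) hs)
          (Nat.pow_le_pow_left hc 2)) hl) hb
    _ = _ := by ring

end terms

private theorem cb_pow_clog {X : ℕ} (hX : 2 ≤ X) : 2 ^ Nat.clog 2 X ≤ 2 * X := by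
  have h1 := Nat.pow_pred_clog_lt_self (b := 2) (by norm_num) (x := X) (by omega)
  have h2 : 0 < Nat.clog 2 X := Nat.clog_pos (by norm_num) (by omega)
  obtain ⟨m, hm⟩ := Nat.exists_eq_succ_of_ne_zero h2.ne'
  rw [hm] at h1 ⊢
  rw [Nat.pred_succ] at h1
  rw [pow_succ]
  omega

theorem facCost_le : ∃ C : ℕ, ∀ (K : Type) [Field K] [DecidableEq K] (bits : List Bool)
    (kK d : ℕ) (Fd : List (List K)) (T : List (List K)), Fd.length = d + 1 → 2 ≤ d →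
    SizeOk (bits, kK * eOf d) Fd T →
    (eOf d + 2) ^ 2 * (facCost (bits, kK * eOf d) kK (eOf d) Fd T + 1) ≤
      C * bnd d bits.length kK := by
  refine ⟨22 ^ 2 * (200 + 1 + 81 + (3 ^ 21 + 60) + (20160 + 49) +
    (9 ^ 21 + 9216 + 11520 + 108 * 2 ^ 20) + 9600000 + 1), ?_⟩
  intro K _ _ bits kK d Fd T hlen hd hsz
  obtain ⟨hw, hz, hr, hk, ho⟩ := hsz
  have hν := cb_pos d
  have hs := cb_sOf d
  obtain ⟨-, ht, ht'⟩ := two_pow_tOf d
  have h2 := cb_root2 (d + 2)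
  have htape := cb_tape d
  have hν20 : nroot 20 (d + 2) ^ 20 ≤ 2 ^ 20 * (d + 2) := nroot_pow_le (by norm_num) (by omega)
  have hpc := cb_pow_clog (X := d + 2) (by omega)
  have e1 : Fd.length - 1 = d := by omega
  have e2 : Fd.length + 1 = d + 2 := by omega
  unfold facCost
  rw [e1] at hw hz hk ho
  rw [e1, e2, hlen]
  rw [hlen] at hr
  have hk1 := cb_kerT (c := 3) (s := 2 * (d + 2)) (X := d + 2) (by omega)
  have hc0 := cb_clog (s := d + 2) (X := d + 2) (by omega)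
  generalize (zsOf (bits, kK * eOf d) Fd T).map (fun z => (z.2 + 1) * (z.1.length + 1)) = wl at *
  generalize wl.sum = w at *
  generalize tot ((zsOf (bits, kK * eOf d) Fd T).map Prod.fst) = z at *
  generalize (radOf (bits, kK * eOf d) Fd T).length = r at *
  generalize kapOf (bits, kK * eOf d) Fd T = κ at *
  generalize ((outOf (bits, kK * eOf d) Fd T).map (fun z => z.1.length + z.2 + 1)).sum = o at *
  have hk2 := cb_kerT (c := 9) (s := 2 * (r + z + 1)) (X := d + 2) (by omega)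
  have hc1 := cb_clog (s := d + 1 + w + 1) (X := d + 2) (by omega)
  have hc2 := cb_clog (s := r + z + 1) (X := d + 2) (by omega)
  have hc3 := cb_clog (s := o + 1) (X := d + 2) (by omega)
  have he : eOf d + 1 ≤ 20 * (Nat.clog 2 (d + 2) + 1) := by unfold eOf; omega
  have hlg : FQ.lg (bits, kK * eOf d) ≤ 20 * (Nat.clog 2 (d + 2) + 1) *
      ((bits.length + 1) * (kK + 1)) := by
    unfold FQ.lg
    have h3 : kK * eOf d + 1 ≤ 20 * (Nat.clog 2 (d + 2) + 1) * (kK + 1) := by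
      calc kK * eOf d + 1 ≤ (eOf d + 1) * (kK + 1) := by nlinarith
        _ ≤ _ := Nat.mul_le_mul_right _ he
    calc (bits.length + 1) * (kK * eOf d + 1) ≤
        (bits.length + 1) * (20 * (Nat.clog 2 (d + 2) + 1) * (kK + 1)) :=
          Nat.mul_le_mul_left _ h3
      _ = _ := by ring
  have hke : kerT (2 * (d + 2)) ≤ 3 ^ 21 * ((d + 2) ^ 2 * nroot 20 (d + 2) ^ 19) := hk1
  have hbb : ((bits, kK * eOf d).1.length + 1) * (kK + 1) ≤ (bits.length + 1) * (kK + 1) := le_rfl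
  have hcN : Nat.clog 2 (eOf d) + 1 ≤ 20 * (Nat.clog 2 (d + 2) + 1) := by
    have h3 : Nat.clog 2 (eOf d) ≤ eOf d :=
      Nat.clog_le_of_le_pow (Nat.lt_two_pow_self).le
    omega
  unfold bnd
  have hB : 1 ≤ (bits.length + 1) * (kK + 1) := Nat.succ_le_of_lt (by positivity)
  have hX : 1 ≤ d + 2 := by omega
  have hL : 1 ≤ Nat.clog 2 (d + 2) + 1 := by omega
  generalize (bits, kK * eOf d).1.length = bl' at *
  generalize FQ.lg (bits, kK * eOf d) = lg at *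
  generalize (bits.length + 1) * (kK + 1) = B at *
  generalize kerT (2 * (d + 2)) = κ1 at *
  generalize kerT (2 * (r + z + 1)) = κ2 at *
  generalize sOf d + 1 = S at *
  generalize tOf d = t at *
  generalize 2 ^ t = W at *
  generalize Nat.clog 2 (eOf d) + 1 = cN at *
  generalize eOf d = e at *
  generalize nroot 2 (d + 2) = μ at *
  generalize Nat.clog 2 (d + 1 + w + 1) + 1 = c1 at *
  generalize Nat.clog 2 (r + z + 1) + 1 = c2 at *
  generalize Nat.clog 2 (o + 1) + 1 = c3 at *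
  generalize (tapeLens d).sum = tp at *
  generalize hBB : (bl' + 1) * (kK + 1) = B at *
  have hW4 : W ≤ 8 * (d + 2) * nroot 20 (d + 2) ^ 10 := ht.trans (Nat.mul_le_mul_left _ h2)
  have ht4 : t + 1 ≤ 4 * (Nat.clog 2 (d + 2) + 1) := by omega
  have hκ1 : κ + 1 ≤ 3 * nroot 20 (d + 2) ^ 10 := by
    have : 1 ≤ nroot 20 (d + 2) ^ 10 := Nat.one_le_pow _ _ hν
    omega
  generalize Nat.clog 2 (d + 2) + 1 = L at *
  generalize 2 ^ Nat.clog 2 (d + 2) = V at *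
  generalize nroot 20 (d + 2) = ν at *
  have a1 : d + 1 + w + 1 ≤ 7 * (d + 2) := by omega
  have a2 : r + z + 1 ≤ 4 * (d + 2) := by omega
  have a3 : o + 1 ≤ 5 * (d + 2) := by omega
  have a4 : V + 1 ≤ 3 * (d + 2) := by omega
  generalize d + 1 + w + 1 = n1 at *
  generalize r + z + 1 = n2 at *
  generalize o + 1 = o1 at *
  generalize V + 1 = V1 at *
  generalize d + 2 = X at *
  generalize κ + 1 = κ0 at *
  generalize t + 1 = t1 at *
  have b0 : tp ≤ 200 * PP X ν L B := by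
    refine htape.trans (Nat.mul_le_mul_left _ ?_)
    unfold PP
    exact Nat.mul_le_mul_left _ hB
  have b1 := cb_T1 hX hν hL hB
  have b2 := cb_T2 hX hν hL hB hs
  have b3 := cb_T3 hX hν hL hB (c := L) le_rfl hk1 hs hlg
  have b4 := cb_T4 hX hν hL hB a1 a4 hs hc1 (l := L) le_rfl hlg
  have b5 := cb_T5 hX hν hL hB a2 hk2 hW4 hs hc2 ht4 hlg hκ1 hν20
  have b6 := cb_T6 hX hν hL hB he a3 hs hc3 hcN (b := B) le_rfl
  have b7 := cb_pos' hX hν hL hB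
  have hsum : tp + X ^ 2 + S ^ 4 + L ^ 2 * (κ1 + X ^ 2 * S * lg) +
      (n1 * V1 * S * c1 ^ 2 * L * lg + n1 ^ 2) +
      (κ2 + n2 * (W + n2) * S * c2 ^ 2 * t1 + κ0 * n2 ^ 2 * S * c2 * lg + κ0 ^ 3 * n2) +
      (e + 1) ^ 2 * o1 ^ 2 * S * c3 ^ 2 * cN * B + 1 ≤
      (200 + 1 + 81 + (3 ^ 21 + 60) + (20160 + 49) +
        (9 ^ 21 + 9216 + 11520 + 108 * 2 ^ 20) + 9600000 + 1) * PP X ν L B := by
    have e7 : (200 + 1 + 81 + (3 ^ 21 + 60) + (20160 + 49) +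
        (9 ^ 21 + 9216 + 11520 + 108 * 2 ^ 20) + 9600000 + 1) * PP X ν L B =
        200 * PP X ν L B + 1 * PP X ν L B + 81 * PP X ν L B + (3 ^ 21 + 60) * PP X ν L B +
        (20160 + 49) * PP X ν L B + (9 ^ 21 + 9216 + 11520 + 108 * 2 ^ 20) * PP X ν L B +
        9600000 * PP X ν L B + PP X ν L B := by ring
    rw [e7]
    exact Nat.add_le_add (Nat.add_le_add (Nat.add_le_add (Nat.add_le_add (Nat.add_le_add
      (Nat.add_le_add (Nat.add_le_add b0 b1) b2) b3) b4) b5) b6) b7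
  have he2 : (e + 2) ^ 2 ≤ (22 * L) ^ 2 := Nat.pow_le_pow_left (by omega) 2
  refine (Nat.mul_le_mul he2 hsum).trans ?_
  generalize (200 + 1 + 81 + (3 ^ 21 + 60) + (20160 + 49) +
        (9 ^ 21 + 9216 + 11520 + 108 * 2 ^ 20) + 9600000 + 1) = C
  unfold PP
  calc (22 * L) ^ 2 * (C * (X ^ 2 * ν ^ 19 * L ^ 5 * B)) =
      22 ^ 2 * C * (X ^ 2 * ν ^ 19 * L ^ 7 * B) := by ring
    _ ≤ 22 ^ 2 * C * (X ^ 2 * ν ^ 19 * L ^ 14 * B ^ 2) := by
      refine Nat.mul_le_mul_left _ (Nat.mul_le_mul (Nat.mul_le_mul_left _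
        (Nat.pow_le_pow_right hL (by norm_num))) ?_)
      exact Nat.le_self_pow (by norm_num) B

theorem bnd_ex : ∃ c, ∀ (K : Type) [Field K],
    Comp K (fun z : ℕ × ℕ × ℕ => bnd z.1 z.2.1 z.2.2) c
      (fun z => bnd z.1 z.2.1 z.2.2) :=
  ⟨_, fun K _ => by
    have h1 : Comp K (fun z : ℕ × ℕ × ℕ => (z.1 + 2) ^ 2 * nroot 20 (z.1 + 2) ^ 19 *
      (Nat.clog 2 (z.1 + 2) + 1) ^ 14 * ((z.2.1 + 1) * (z.2.2 + 1)) ^ 2) _ _ := inferInstance
    have h2 : Comp K (fun z : ℕ × ℕ × ℕ => bnd z.1 z.2.1 z.2.2) _ _ :=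
      h1.congr fun z => by rw [bnd]
    refine Comp.bigO 1099511627776 h2 (fun z => ?_)
    obtain ⟨d, b, k⟩ := z
    simp only [zero_add, add_zero]
    have hm : (b + 1).mul k = (b + 1) * k := rfl
    rw [hm]
    unfold bnd
    have hν := cb_pos d
    have hX : 1 ≤ d + 2 := by omega
    have hL : 1 ≤ Nat.clog 2 (d + 2) + 1 := by omega
    have hB : 1 ≤ (b + 1) * (k + 1) := Nat.succ_le_of_lt (by positivity)
    have hB' : (b + 1) * k ≤ (b + 1) * (k + 1) := Nat.mul_le_mul_left _ (by omega)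
    clear h1 h2
    generalize Nat.clog 2 (d + 2) + 1 = L at *
    generalize nroot 20 (d + 2) = ν at *
    generalize d + 2 = X at *
    generalize (b + 1) * (k + 1) = B at *
    generalize (b + 1) * k = B' at *
    have c1 : X ^ 2 ≤ X ^ 2 * ν ^ 19 := Nat.le_mul_of_pos_right _ (by positivity)
    have c2 : X ^ 2 * ν ^ 19 ≤ X ^ 2 * ν ^ 19 * L ^ 14 :=
      Nat.le_mul_of_pos_right _ (by positivity)
    have c3 : X ^ 2 * ν ^ 19 * L ^ 14 ≤ X ^ 2 * ν ^ 19 * L ^ 14 * B ^ 2 :=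
      Nat.le_mul_of_pos_right _ (by positivity)
    have c4 : ν ^ 19 ≤ X ^ 2 * ν ^ 19 := Nat.le_mul_of_pos_left _ (by positivity)
    have c5 : L ^ 14 ≤ X ^ 2 * ν ^ 19 * L ^ 14 := Nat.le_mul_of_pos_left _ (by positivity)
    have c6 : B ^ 2 ≤ X ^ 2 * ν ^ 19 * L ^ 14 * B ^ 2 := Nat.le_mul_of_pos_left _ (by positivity)
    have c7 : B ≤ B ^ 2 := Nat.le_self_pow (by norm_num) B
    have c8 : X ≤ X ^ 2 := Nat.le_self_pow (by norm_num) X
    have c9 : X * ν ≤ X ^ 2 * ν ^ 19 := Nat.mul_le_mul c8 (Nat.le_self_pow (by norm_num) ν)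
    have d1 : (X + 1) ^ 2 ≤ 4 * X ^ 2 := by nlinarith
    have d2 : (X + 1) * (ν + 1) ≤ 4 * (X * ν) := by nlinarith
    have d3 : (ν + 1) ^ 19 ≤ 2 ^ 19 * ν ^ 19 := by
      rw [← mul_pow]
      exact Nat.pow_le_pow_left (by omega) 19
    have d4 : (L + 1) ^ 14 ≤ 2 ^ 14 * L ^ 14 := by
      rw [← mul_pow]
      exact Nat.pow_le_pow_left (by omega) 14
    have d5 : (B + 1) ^ 2 ≤ 4 * B ^ 2 := by nlinarith
    have d6 : X ^ 2 * (ν ^ 19 + 1) = X ^ 2 * ν ^ 19 + X ^ 2 := by ring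
    have d7 : X ^ 2 * ν ^ 19 * (L ^ 14 + 1) = X ^ 2 * ν ^ 19 * L ^ 14 + X ^ 2 * ν ^ 19 := by ring
    have d8 : X ^ 2 * ν ^ 19 * L ^ 14 * (B ^ 2 + 1) =
      X ^ 2 * ν ^ 19 * L ^ 14 * B ^ 2 + X ^ 2 * ν ^ 19 * L ^ 14 := by ring
    rw [d6, d7, d8]
    generalize X ^ 2 * ν ^ 19 * L ^ 14 * B ^ 2 = P at *
    generalize X ^ 2 * ν ^ 19 * L ^ 14 = P1 at *
    generalize X ^ 2 * ν ^ 19 = P2 at *
    generalize (X + 1) ^ 2 = q1 at *
    generalize (X + 1) * (ν + 1) = q2 at *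
    generalize (ν + 1) ^ 19 = q3 at *
    generalize (L + 1) ^ 14 = q4 at *
    generalize (B + 1) ^ 2 = q5 at *
    generalize ν ^ 19 = q6 at *
    generalize L ^ 14 = q7 at *
    generalize B ^ 2 = q8 at *
    generalize X ^ 2 = q9 at *
    generalize X * ν = q10 at *
    omega⟩

theorem tapeNeed_le : ∃ C : ℕ, ∀ d : ℕ, tapeNeed d ≤ C * bnd d 0 0 := by
  refine ⟨3200 + 200 * 20, fun d => ?_⟩
  have hν := cb_pos d
  have htape := cb_tape d
  unfold tapeNeed bnd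
  have he : eOf d ≤ 20 * (Nat.clog 2 (d + 2) + 1) := by unfold eOf; omega
  have hX : 1 ≤ d + 2 := by omega
  have hL : 1 ≤ Nat.clog 2 (d + 2) + 1 := by omega
  generalize Nat.clog 2 (d + 2) + 1 = L at *
  generalize nroot 20 (d + 2) = ν at *
  generalize (tapeLens d).sum = tp at *
  generalize eOf d = e at *
  generalize d + 2 = X at *
  unfold PP at htape
  have h1 : 8 * e * e ≤ 3200 * (X ^ 2 * ν ^ 19 * L ^ 14) := by
    calc 8 * e * e ≤ 8 * (20 * L) * (20 * L) := Nat.mul_le_mul (Nat.mul_le_mul_left _ he) he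
      _ = 3200 * (1 * 1 * L ^ 2) := by ring
      _ ≤ 3200 * (X ^ 2 * ν ^ 19 * L ^ 14) := by
        refine Nat.mul_le_mul_left _ (Nat.mul_le_mul (Nat.mul_le_mul (Nat.one_le_pow _ _ hX)
          (Nat.one_le_pow _ _ hν)) (Nat.pow_le_pow_right hL (by norm_num)))
  have h2 : tp * e ≤ (200 * 20) * (X ^ 2 * ν ^ 19 * L ^ 14) := by
    calc tp * e ≤ (200 * (X ^ 2 * ν ^ 19 * L ^ 5 * 1)) * (20 * L) := Nat.mul_le_mul htape he
      _ = (200 * 20) * (X ^ 2 * ν ^ 19 * L ^ 6) := by ring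
      _ ≤ (200 * 20) * (X ^ 2 * ν ^ 19 * L ^ 14) :=
        Nat.mul_le_mul_left _ (Nat.mul_le_mul_left _ (Nat.pow_le_pow_right hL (by norm_num)))
  have e : (3200 + 200 * 20) * (X ^ 2 * ν ^ 19 * L ^ 14 * ((0 + 1) * (0 + 1)) ^ 2) =
      3200 * (X ^ 2 * ν ^ 19 * L ^ 14) + (200 * 20) * (X ^ 2 * ν ^ 19 * L ^ 14) := by ring
  rw [e]
  exact Nat.add_le_add h1 h2

/-! ### Asymptotics -/

private theorem cb_log {n m : ℕ} (h : 2 ^ n ≤ m) : (n : ℝ) ≤ 2 * Real.log m := by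
  have h1 : ((2 : ℝ)) ^ n ≤ (m : ℝ) := by exact_mod_cast h
  have h2 := Real.log_le_log (by positivity) h1
  rw [Real.log_pow] at h2
  have h3 : (1 : ℝ) / 2 ≤ Real.log 2 := by
    have := Real.log_two_gt_d9
    linarith
  nlinarith [Nat.cast_nonneg (α := ℝ) n]

private theorem cb_log_le (d : ℕ) :
    Real.log d ≤ 500 * (d : ℝ) ^ ((1 : ℝ) / 500) := by
  have := Real.log_le_rpow_div (x := (d : ℝ)) (ε := 1 / 500) (Nat.cast_nonneg d) (by norm_num)
  rw [div_div_eq_mul_div, div_one, mul_comm] at this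
  exact this

theorem bnd_asymp (c : ℕ) : ∃ C : ℝ, ∀ (d p k : ℕ), 2 ≤ d → p.Prime → 0 < k →
    p ^ k ≤ d ^ c →
    (bnd d (Nat.bits p).length k : ℝ) ≤ C * (d : ℝ) ^ ((3 : ℝ) - 1 / 100) := by
  refine ⟨2 ^ 2 * (4 ^ 19) * 2004 ^ 14 * ((1000 * c + 2) * (1000 * c + 2)) ^ 2, ?_⟩
  intro d p k hd hp hk hpk
  have hd0 : (0 : ℝ) < d := by exact_mod_cast (by omega : 0 < d)
  have hd1 : (1 : ℝ) ≤ d := by exact_mod_cast (by omega : 1 ≤ d)
  set y : ℝ := (d : ℝ) ^ ((1 : ℝ) / 500) with hy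
  have hy1 : 1 ≤ y := Real.one_le_rpow hd1 (by norm_num)
  have hlog := cb_log_le d
  rw [← hy] at hlog
  have hlog0 : 0 ≤ Real.log d := Real.log_nonneg hd1
  -- the root
  have hν : (nroot 20 (d + 2) : ℝ) ≤ 4 * (d : ℝ) ^ ((1 : ℝ) / 20) := by
    have h1 := nroot_pow_le (k := 20) (by norm_num) (n := d + 2) (by omega)
    have h2 : ((nroot 20 (d + 2) : ℝ)) ^ 20 ≤ 2 ^ 20 * (d + 2) := by exact_mod_cast h1
    have h3 : ((4 : ℝ) * (d : ℝ) ^ ((1 : ℝ) / 20)) ^ 20 = 4 ^ 20 * d := by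
      rw [mul_pow, ← Real.rpow_natCast ((d : ℝ) ^ ((1 : ℝ) / 20)), ← Real.rpow_mul hd0.le]
      norm_num
    refine le_of_pow_le_pow_left₀ (n := 20) (by norm_num) (by positivity) ?_
    rw [h3]
    have h4 : ((2 : ℝ)) ^ 20 * (d + 2) ≤ 4 ^ 20 * d := by
      have : (2 : ℝ) ≤ d := by exact_mod_cast hd
      nlinarith
    linarith
  have hX : ((d : ℝ) + 2) ≤ 2 * d := by
    have : (2 : ℝ) ≤ d := by exact_mod_cast hd
    linarith
  -- the logarithm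
  have hL : ((Nat.clog 2 (d + 2) : ℝ) + 1) ≤ 2004 * y := by
    have h0 : 0 < Nat.clog 2 (d + 2) := Nat.clog_pos (by norm_num) (by omega)
    obtain ⟨m, hm⟩ := Nat.exists_eq_succ_of_ne_zero h0.ne'
    have h1 := Nat.pow_pred_clog_lt_self (b := 2) (by norm_num) (x := d + 2) (by omega)
    rw [hm, Nat.pred_succ] at h1
    have h2 := cb_log h1.le
    rw [hm]
    push_cast at h2 ⊢
    have h3 : Real.log ((d : ℝ) + 2) ≤ Real.log d + 1 := by
      have h4 : Real.log ((d : ℝ) + 2) ≤ Real.log (2 * d) := Real.log_le_log (by positivity) hX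
      rw [Real.log_mul (by norm_num) hd0.ne'] at h4
      have h5 : Real.log 2 ≤ 1 := by
        have := Real.log_two_lt_d9
        linarith
      linarith
    nlinarith
  have hlogc : Real.log ((d ^ c : ℕ) : ℝ) = c * Real.log d := by
    push_cast
    rw [Real.log_pow]
  have hkk : ((k : ℝ) + 1) ≤ (1000 * c + 2) * y := by
    have h1 : 2 ^ k ≤ d ^ c := (Nat.pow_le_pow_left hp.two_le k).trans hpk
    have h2 := cb_log h1
    rw [hlogc] at h2
    have h3 : (c : ℝ) * Real.log d ≤ c * (500 * y) := by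
      exact mul_le_mul_of_nonneg_left hlog (Nat.cast_nonneg c)
    nlinarith
  have hbb : (((Nat.bits p).length : ℝ) + 1) ≤ (1000 * c + 2) * y := by
    rw [Nat.size_eq_bits_len]
    have h0 : 0 < Nat.size p := Nat.size_pos.2 hp.pos
    obtain ⟨m, hm⟩ := Nat.exists_eq_succ_of_ne_zero h0.ne'
    have h1 : 2 ^ m ≤ p := by
      rw [← Nat.lt_size, hm]
      exact Nat.lt_succ_self m
    have h1' : 2 ^ m ≤ d ^ c := (h1.trans (Nat.le_self_pow hk.ne' p)).trans hpk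
    have h2 := cb_log h1'
    rw [hlogc] at h2
    have h3 : (c : ℝ) * Real.log d ≤ c * (500 * y) := by
      exact mul_le_mul_of_nonneg_left hlog (Nat.cast_nonneg c)
    rw [hm]
    push_cast
    nlinarith
  unfold bnd
  push_cast
  set ν : ℝ := (nroot 20 (d + 2) : ℝ) with hνd
  have hνn : 0 ≤ ν := Nat.cast_nonneg _
  have e1 : ((d : ℝ) + 2) ^ 2 * ν ^ 19 * ((Nat.clog 2 (d + 2) : ℝ) + 1) ^ 14 *
      ((((Nat.bits p).length : ℝ) + 1) * ((k : ℝ) + 1)) ^ 2 ≤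
      (2 * d) ^ 2 * (4 * (d : ℝ) ^ ((1 : ℝ) / 20)) ^ 19 * (2004 * y) ^ 14 *
      (((1000 * c + 2) * y) * ((1000 * c + 2) * y)) ^ 2 := by
    gcongr
  refine e1.trans ?_
  have e2 : (2 * (d : ℝ)) ^ 2 * (4 * (d : ℝ) ^ ((1 : ℝ) / 20)) ^ 19 * (2004 * y) ^ 14 *
      (((1000 * c + 2) * y) * ((1000 * c + 2) * y)) ^ 2 =
      (2 ^ 2 * (4 ^ 19) * 2004 ^ 14 * ((1000 * c + 2) * (1000 * c + 2)) ^ 2) *
      ((d : ℝ) ^ 2 * ((d : ℝ) ^ ((1 : ℝ) / 20)) ^ 19 * y ^ 18) := by ring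
  rw [e2]
  refine mul_le_mul_of_nonneg_left ?_ (by positivity)
  have e3 : (d : ℝ) ^ 2 * ((d : ℝ) ^ ((1 : ℝ) / 20)) ^ 19 * y ^ 18 =
      (d : ℝ) ^ ((2 : ℝ) + 19 / 20 + 18 / 500) := by
    rw [hy, ← Real.rpow_natCast ((d : ℝ) ^ ((1 : ℝ) / 20)), ← Real.rpow_mul hd0.le,
      ← Real.rpow_natCast ((d : ℝ) ^ ((1 : ℝ) / 500)), ← Real.rpow_mul hd0.le,
      Real.rpow_add hd0, Real.rpow_add hd0]
    norm_num
  rw [e3]
  exact Real.rpow_le_rpow_of_exponent_le hd1 (by norm_num)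

end Pool.Agent.BiFac
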