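import Pool.Agent.Work.MP_8d07ed_lc.Bd.B08
import Pool.Agent.Work.MP_8d07ed_lc.Bd.B01

/-!
# The final theorem
-/

set_option autoImplicit false

namespace Pool.Agent.BiFac

open Polynomial Pool.Agent.TreeRAM

theorem fin_bnd_mono (d bl k : ℕ) : bnd d 0 0 ≤ bnd d bl k := by
  unfold bnd
  have h : ((0 + 1) * (0 + 1)) ^ 2 ≤ ((bl + 1) * (k + 1)) ^ 2 :=
    Nat.pow_le_pow_left (Nat.mul_le_mul (by omega) (by omega)) 2
  exact Nat.mul_le_mul_left _ h

theorem fin_bnd_ge (d bl k : ℕ) : (d + 2) + bl + k ≤ bnd d bl k := by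
  unfold bnd
  have h1 : 1 ≤ nroot 20 (d + 2) ^ 19 :=
    Nat.one_le_pow _ _ (core_nroot_pos (by norm_num) (by omega))
  have h3 : 1 ≤ (Nat.clog 2 (d + 2) + 1) ^ 14 := Nat.one_le_pow _ _ (by omega)
  have h5 : (d + 2) + bl + k ≤ (d + 2) ^ 2 * ((bl + 1) * (k + 1)) ^ 2 := by
    have h6 : 1 + bl + k ≤ (bl + 1) * (k + 1) := by nlinarith [Nat.zero_le (bl * k)]
    have h7 : (bl + 1) * (k + 1) ≤ ((bl + 1) * (k + 1)) ^ 2 := Nat.le_self_pow (by norm_num) _
    have h8 : d + 2 ≤ (d + 2) ^ 2 := Nat.le_self_pow (by norm_num) _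
    calc (d + 2) + bl + k ≤ (d + 2) * (1 + bl + k) := by nlinarith [Nat.zero_le (d * (bl + k))]
      _ ≤ (d + 2) ^ 2 * ((bl + 1) * (k + 1)) ^ 2 := Nat.mul_le_mul h8 (h6.trans h7)
  calc (d + 2) + bl + k ≤ (d + 2) ^ 2 * ((bl + 1) * (k + 1)) ^ 2 := h5
    _ = (d + 2) ^ 2 * 1 * 1 * ((bl + 1) * (k + 1)) ^ 2 := by ring
    _ ≤ _ := by gcongr

/-- The fuel for the clock. -/
theorem fuel_ex : ∃ b : Cd, ∀ (K : Type) [Field K],
    Comp K (fun z : List Bool × ℕ × List (List K) × List K =>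
      bnd (z.2.2.1.length - 1) z.1.length z.2.1) b
      (fun z => bnd (z.2.2.1.length - 1) z.1.length z.2.1) :=
  ⟨_, fun K _ => (Comp.comp (bnd_ex.choose_spec K) (f := fun z : List Bool × ℕ × List (List K) ×
      List K => (z.2.2.1.length - 1, z.1.length, z.2.1)) inferInstance).bigO 8 (fun z => by
    have := fin_bnd_ge (z.2.2.1.length - 1) z.1.length z.2.1
    simp only
    omega)⟩

variable {K : Type} [Field K]

theorem fin_arith1 {t C2 Ct B : ℕ} {M X : ℝ} (hB : 1 ≤ B) (hM : 0 ≤ M) (hX : 0 ≤ X)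
    (h : (B : ℝ) ≤ M * X) (ht : t ≤ C2 * (B + 1)) : (t : ℝ) ≤ (2 * C2 + Ct) * M * X := by
  have h1 : (t : ℝ) ≤ 2 * C2 * B := by
    have : t ≤ 2 * C2 * B := by
      calc t ≤ C2 * (B + 1) := ht
        _ ≤ C2 * (B + B) := Nat.mul_le_mul_left _ (by omega)
        _ = 2 * C2 * B := by ring
    exact_mod_cast this
  have h3 : 0 ≤ M * X := mul_nonneg hM hX
  calc (t : ℝ) ≤ 2 * C2 * B := h1
    _ ≤ 2 * C2 * (M * X) := mul_le_mul_of_nonneg_left h (by positivity)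
    _ ≤ (2 * C2 + Ct) * (M * X) :=
        mul_le_mul_of_nonneg_right (by linarith [(Nat.cast_nonneg Ct : (0 : ℝ) ≤ Ct)]) h3
    _ = _ := by ring

theorem fin_arith2 {n C2 Ct B : ℕ} {M X : ℝ} (hM : 0 ≤ M) (hX : 0 ≤ X)
    (h : (B : ℝ) ≤ M * X) (hn : n ≤ Ct * B) : (n : ℝ) ≤ (2 * C2 + Ct) * M * X := by
  have h1 : (n : ℝ) ≤ Ct * B := by exact_mod_cast hn
  have h3 : 0 ≤ M * X := mul_nonneg hM hX
  calc (n : ℝ) ≤ Ct * B := h1
    _ ≤ Ct * (M * X) := mul_le_mul_of_nonneg_left h (Nat.cast_nonneg _)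
    _ ≤ (2 * C2 + Ct) * (M * X) :=
        mul_le_mul_of_nonneg_right (by linarith [(Nat.cast_nonneg C2 : (0 : ℝ) ≤ C2)]) h3
    _ = _ := by ring

theorem fin_pr [Fintype K] {R : ℕ} {B : List K → Prop} (h : (2 : ℝ) / 3 ≤ pr K R B)
    (hK : 0 < Fintype.card K) :
    2 * Nat.card (Fin R → K) ≤ 3 * Nat.card {ρ : Fin R → K // B (List.ofFn ρ)} := by
  unfold pr at h
  have hpos : (0 : ℝ) < (Fintype.card K : ℝ) ^ R := by
    have : (0 : ℝ) < Fintype.card K := by exact_mod_cast hK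
    positivity
  rw [le_div_iff₀ hpos] at h
  have h4 : (Nat.card (Fin R → K) : ℝ) = (Fintype.card K : ℝ) ^ R := by
    rw [Nat.card_eq_fintype_card, Fintype.card_fun, Fintype.card_fin]
    push_cast
    ring
  rw [← h4] at h
  have h5 : (2 : ℝ) * Nat.card (Fin R → K) ≤
      3 * Nat.card {ρ : Fin R → K // B (List.ofFn ρ)} := by linarith
  exact_mod_cast h5

/-- **Main theorem.** -/
theorem subcubicFactorization : SubcubicFactorization := by
  obtain ⟨P, C1, hcore⟩ := exists_core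
  obtain ⟨b, hb⟩ := fuel_ex
  obtain ⟨P', C2, hcl⟩ := exists_clocked P b C1
  obtain ⟨Ct, hCt⟩ := tapeNeed_le
  refine ⟨P', 1 / 100, by norm_num, fun c => ?_⟩
  obtain ⟨Ca, hCa⟩ := bnd_asymp c
  refine ⟨(2 * C2 + Ct) * max Ca 0, ?_⟩
  intro K _ _ p k d R F hp hk hF hd hq hR
  have hK2 : 2 ≤ Fintype.card K := Fintype.one_lt_card
  have hd2 : 2 ≤ d := by
    by_contra h
    have h2 : d ^ c ≤ 1 := by
      calc d ^ c ≤ 1 ^ c := Nat.pow_le_pow_left (by omega) c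
        _ = 1 := one_pow c
    omega
  have hk0 : 0 < k := by
    rcases Nat.eq_zero_or_pos k with h | h
    · rw [h, pow_zero] at hk; omega
    · exact h
  have hX : 0 ≤ (d : ℝ) ^ ((3 : ℝ) - 1 / 100) := by positivity
  have hM : 0 ≤ max Ca 0 := le_max_right _ _
  have hasy : (bnd d (Nat.bits p).length k : ℝ) ≤
      max Ca 0 * (d : ℝ) ^ ((3 : ℝ) - 1 / 100) :=
    (hCa d p k hd2 hp hk0 (hk ▸ hq)).trans (mul_le_mul_of_nonneg_right (le_max_left _ _) hX)
  have hB1 : 1 ≤ bnd d (Nat.bits p).length k := by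
    have := fin_bnd_ge d (Nat.bits p).length k; omega
  have hneed : tapeNeed d ≤ R := by
    have h4 : (tapeNeed d : ℝ) ≤ R := (fin_arith2 (C2 := C2) hM hX hasy
      ((hCt d).trans (Nat.mul_le_mul_left Ct
        (fin_bnd_mono d (Nat.bits p).length k)))).trans hR
    exact_mod_cast h4
  have hFd : (dense d F).length - 1 = d := by simp [dense]
  obtain ⟨hall, hpr⟩ := hcore K p k d F hp hk hF hd hd2 R hneed
  have hin : ∀ tape : List K, input p k F tape = enc K (Nat.bits p, k, dense d F, tape) := by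
    intro tape
    rw [input, hd]
  have hclk := fun (tape : List K) => hcl K _ _ (hb K) (Nat.bits p, k, dense d F, tape)
  simp only [hFd, ← hin] at hclk
  generalize bnd d (Nat.bits p).length k = B at *
  constructor
  · intro tape
    obtain ⟨y, t, hy⟩ := hall (List.ofFn tape) (by simp)
    obtain ⟨⟨y', t', hr, ht'⟩, -⟩ := hclk _ y t hy
    exact ⟨y', t', hr, fin_arith1 hB1 hM hX hasy ht'⟩
  · rw [pr_not] at hpr
    have h1 : (2 : ℝ) / 3 ≤ pr K R (fun tape => ∃ (Lf : List (MvPolynomial (Fin 2) K × ℕ))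
        (t : ℕ), IsFactorization F Lf ∧ Run P (input p k F tape) (output Lf) t ∧
          t ≤ C1 * B) := by linarith
    refine fin_pr (B := fun tape => ∃ (L : List (MvPolynomial (Fin 2) K × ℕ))
        (t : ℕ), IsFactorization F L ∧ Run P' (input p k F tape) (output L) t)
      (h1.trans (pr_mono ?_)) (by omega)
    rintro tape _ ⟨Lf, t, hLf, hr, ht⟩
    obtain ⟨-, h⟩ := hclk _ _ t hr
    obtain ⟨t', ht'⟩ := h ht
    exact ⟨Lf, t', hLf, ht'⟩

end Pool.Agent.BiFac
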